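import Pool.Agent.H10.JM.Nrm

/-!
# Comparison of two roots

`cmp`: a solution `e` of `S 0 + S 1 * e + … = E` which is small at the origin is small on the
polydisc of radius `ρ`, if `S 0` and `E` are small, `S 1` is nearly constant and the higher
coefficients satisfy a gap condition (no other root nearby). No assumption on the size of `e` is
made: the norm of `e` is a continuous function of the radius.
-/

set_option autoImplicit false

namespace Pool.JM

open MvPolynomial Finset

variable {σ : Type*}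

theorem nrm_C_mul {K : ℕ∞} {ρ : ℝ} (hρ : 0 ≤ ρ) (q : ℝ) (f : MvPolynomial σ ℝ) :
    nrm absS K hρ (C q * f) = |q| * nrm absS K hρ f := by
  classical
  rw [nrm_apply, nrm_apply, nrmF_eq absS (T := f.support)]
  · unfold nrmF
    rw [Finset.mul_sum]
    refine Finset.sum_congr rfl fun s _ => ?_
    rw [coeff_C_mul]
    unfold wt
    split_ifs
    · rw [absS_apply, absS_apply, abs_mul, mul_assoc]
    · rw [mul_zero]
  · intro s hs
    rw [mem_support_iff, coeff_C_mul] at hs
    exact mem_support_iff.2 (right_ne_zero_of_mul hs)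

theorem nrm_pow {A : Type*} [CommRing A] (p : RingSeminorm A) (x : A) (m : ℕ) :
    p (x ^ (m + 1)) ≤ p x ^ (m + 1) := by
  induction m with
  | zero => simp
  | succ m ih =>
    rw [pow_succ x (m + 1), pow_succ (p x) (m + 1)]
    exact (map_mul_le_mul p _ _).trans (mul_le_mul_of_nonneg_right ih (apply_nonneg p _))

/-- **Comparison of two roots.** -/
theorem cmp {D : ℕ} {K : ℕ∞} {ρ q ε : ℝ} (hρ : 0 ≤ ρ) (S : ℕ → MvPolynomial σ ℝ)
    (e E : MvPolynomial σ ℝ) (hq : 0 < |q|) (hε : 0 < ε)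
    (h : ∑ m ∈ range (D + 2), S m * e ^ m = E)
    (h0 : nrm absS K hρ (S 0) ≤ |q| * ε)
    (h1 : nrm absS K hρ (S 1 - C q) ≤ |q| / 4)
    (hE : nrm absS K hρ E ≤ |q| * ε)
    (hm : ∑ m ∈ range D, nrm absS K hρ (S (m + 2)) * (4 * ε) ^ (m + 1) ≤ |q| / 8)
    (he : |coeff 0 e| < 4 * ε) : nrm absS K hρ e < 4 * ε := by
  by_contra hcon
  push Not at hcon
  have h4 : 0 < 4 * ε := by positivity
  obtain ⟨r, hr, hr1⟩ : ∃ r ∈ Set.Icc (0 : ℝ) ρ, nrmF absS K r e = 4 * ε := by
    have hc : ContinuousOn (fun r => nrmF absS K r e) (Set.Icc 0 ρ) :=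
      (nrmF_continuous K e).continuousOn
    have h2 := intermediate_value_Icc hρ hc
    have h3 : 4 * ε ∈ Set.Icc (nrmF absS K 0 e) (nrmF absS K ρ e) := by
      refine ⟨?_, ?_⟩
      · rw [nrmF_at_zero]
        exact he.le
      · exact hcon
    obtain ⟨r, hr, hr1⟩ := h2 h3
    exact ⟨r, hr, hr1⟩
  have hr0 : 0 ≤ r := hr.1
  have hmono : ∀ f : MvPolynomial σ ℝ, nrm absS K hr0 f ≤ nrm absS K hρ f :=
    fun f => nrm_mono absS hr0 hr.2 f
  obtain ⟨N, hN⟩ : ∃ N : RingSeminorm (MvPolynomial σ ℝ), N = nrm absS K hr0 := ⟨_, rfl⟩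
  have hNe : N e = 4 * ε := by
    rw [hN, nrm_apply]
    exact hr1
  have hid : C q * e = E - S 0 - (S 1 - C q) * e - ∑ m ∈ range D, S (m + 2) * e ^ (m + 2) := by
    rw [← h, Finset.sum_range_succ', Finset.sum_range_succ', pow_zero, mul_one, zero_add, pow_one]
    ring
  have h5 : N (C q * e) = |q| * (4 * ε) := by
    rw [← hNe, hN]
    exact nrm_C_mul hr0 q e
  have h6 : N (∑ m ∈ range D, S (m + 2) * e ^ (m + 2)) ≤ 4 * ε * (|q| / 8) := by
    have a1 : N (∑ m ∈ range D, S (m + 2) * e ^ (m + 2)) ≤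
        ∑ m ∈ range D, N (S (m + 2) * e ^ (m + 2)) := by
      rw [hN]
      simp only [nrm_apply]
      exact nrmF_sum absS hr0 _ _
    refine a1.trans ?_
    refine le_trans ?_ (mul_le_mul_of_nonneg_left hm h4.le)
    rw [Finset.mul_sum]
    refine Finset.sum_le_sum fun m _ => ?_
    calc N (S (m + 2) * e ^ (m + 2)) ≤ N (S (m + 2)) * N (e ^ (m + 2)) := map_mul_le_mul N _ _
      _ ≤ nrm absS K hρ (S (m + 2)) * (4 * ε) ^ (m + 2) := by
          refine mul_le_mul ?_ ?_ (apply_nonneg N _) (apply_nonneg _ _)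
          · rw [hN]
            exact hmono _
          · rw [← hNe]
            exact nrm_pow N e (m + 1)
      _ = 4 * ε * (nrm absS K hρ (S (m + 2)) * (4 * ε) ^ (m + 1)) := by ring
  have h7 : N ((S 1 - C q) * e) ≤ |q| / 4 * (4 * ε) := by
    refine (map_mul_le_mul N _ _).trans ?_
    rw [hNe]
    refine mul_le_mul_of_nonneg_right ?_ h4.le
    refine le_trans ?_ h1
    rw [hN]
    exact hmono _
  have h8 : N (S 0) ≤ |q| * ε := by
    refine le_trans ?_ h0
    rw [hN]
    exact hmono _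
  have h9 : N E ≤ |q| * ε := by
    refine le_trans ?_ hE
    rw [hN]
    exact hmono _
  have h10 : N (E - S 0 - (S 1 - C q) * e - ∑ m ∈ range D, S (m + 2) * e ^ (m + 2)) ≤
      N E + N (S 0) + N ((S 1 - C q) * e) + N (∑ m ∈ range D, S (m + 2) * e ^ (m + 2)) := by
    refine (map_sub_le_add N _ _).trans (add_le_add_left ?_ _)
    refine (map_sub_le_add N _ _).trans (add_le_add_left ?_ _)
    exact map_sub_le_add N _ _
  rw [← hid, h5] at h10
  have h11 : 0 < |q| * ε := mul_pos hq hε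
  nlinarith

end Pool.JM
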