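import Pool.Agent.H10.JM.Ie
import Pool.Agent.H86.IE.Jen

/-!
# The dictionary for the equations

`dic`: a polynomial in `Option (Fin (d + 1))` (`none` = last coordinate, `some 0` = time, `some (j + 1)`
= base coordinate `j`) as a polynomial in the last coordinate with coefficients in `MPt d`
(`none` = time, `some j` = base coordinate `j`): degrees, coefficients, values of the derivatives.
-/

set_option autoImplicit false

namespace Pool.JM

open Finset

variable {d : ℕ}

/-- The variable of the time or of a base coordinate. -/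
def ptv {d : ℕ} (i : Fin (d + 1)) : Option (Fin d) := Fin.cases none some i

/-- The point with time `t`, base coordinates `V` and last coordinate `N`. -/
def pnt {d : ℕ} (t : ℝ) (V : Fin d → ℝ) (N : ℝ) : Option (Fin (d + 1)) → ℝ :=
  fun o => o.elim N fun i => oel t V (ptv i)

/-- The dictionary. -/
noncomputable def dic {d : ℕ} : MvPolynomial (Option (Fin (d + 1))) ℝ →ₐ[ℝ] Polynomial (MPt d) :=
  MvPolynomial.aeval fun o => o.elim Polynomial.X fun i => Polynomial.C (MvPolynomial.X (ptv i))

/-- The monomials. -/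
noncomputable def dmn {d : ℕ} (s : Option (Fin (d + 1)) →₀ ℕ) : MPt d :=
  ∏ i : Fin (d + 1), MvPolynomial.X (ptv i) ^ s (some i)

theorem dic_eq (Q : MvPolynomial (Option (Fin (d + 1))) ℝ) : dic Q =
    ∑ s ∈ Q.support, Polynomial.C (MvPolynomial.C (MvPolynomial.coeff s Q) * dmn s) *
      Polynomial.X ^ s none := by
  unfold dic
  rw [MvPolynomial.aeval_def, MvPolynomial.eval₂_eq']
  refine Finset.sum_congr rfl fun s _ => ?_
  rw [Fintype.prod_option]
  simp only [Option.elim]
  have h1 : (algebraMap ℝ (Polynomial (MPt d))) (MvPolynomial.coeff s Q) =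
      Polynomial.C (MvPolynomial.C (MvPolynomial.coeff s Q)) := rfl
  rw [h1, Polynomial.C_mul]
  unfold dmn
  rw [map_prod]
  simp only [map_pow]
  ring

theorem coeff_dic (Q : MvPolynomial (Option (Fin (d + 1))) ℝ) (m : ℕ) : (dic Q).coeff m =
    ∑ s ∈ Q.support, if m = s none then MvPolynomial.C (MvPolynomial.coeff s Q) * dmn s else 0 := by
  rw [dic_eq, Polynomial.finsetSum_coeff]
  refine Finset.sum_congr rfl fun s _ => ?_
  rw [Polynomial.coeff_C_mul_X_pow]

theorem dmn_deg (s : Option (Fin (d + 1)) →₀ ℕ) : (dmn s).totalDegree ≤ s.degree := by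
  unfold dmn
  refine (MvPolynomial.totalDegree_finsetProd _ _).trans ?_
  refine le_trans (Finset.sum_le_sum (g := fun i => s (some i)) fun i _ => ?_) ?_
  · refine (MvPolynomial.totalDegree_pow _ _).trans ?_
    rw [MvPolynomial.totalDegree_X, mul_one]
  · rw [Finsupp.degree_eq_sum, Fintype.sum_option]
    exact Nat.le_add_left _ _

theorem dic_natDegree (Q : MvPolynomial (Option (Fin (d + 1))) ℝ) :
    (dic Q).natDegree ≤ Q.totalDegree := by
  rw [dic_eq]
  refine Polynomial.natDegree_sum_le_of_forall_le _ _ fun s hs => ?_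
  refine (Polynomial.natDegree_C_mul_X_pow_le _ _).trans ?_
  refine le_trans ?_ (MvPolynomial.le_totalDegree hs)
  by_cases h : s none = 0
  · rw [h]
    exact Nat.zero_le _
  · exact Finset.single_le_sum (f := fun i => s i) (fun _ _ => Nat.zero_le _)
      (Finsupp.mem_support_iff.2 h)

theorem dic_coeff_deg (Q : MvPolynomial (Option (Fin (d + 1))) ℝ) (m : ℕ) :
    ((dic Q).coeff m).totalDegree ≤ Q.totalDegree := by
  rw [coeff_dic]
  refine MvPolynomial.totalDegree_finsetSum_le fun s hs => ?_
  split_ifs
  · refine (MvPolynomial.totalDegree_mul _ _).trans ?_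
    rw [MvPolynomial.totalDegree_C, zero_add]
    exact (dmn_deg s).trans (MvPolynomial.le_totalDegree hs)
  · rw [MvPolynomial.totalDegree_zero]
    exact Nat.zero_le _

theorem dic_coefSum (Q : MvPolynomial (Option (Fin (d + 1))) ℝ) (m : ℕ) :
    Pool.KAL.coefSum ((dic Q).coeff m) ≤ Pool.KAL.coefSum Q := by
  rw [coeff_dic]
  refine (Pool.KAL.coefSum_sum_le _ _).trans ?_
  unfold Pool.KAL.coefSum
  refine Finset.sum_le_sum fun s _ => ?_
  have h0 : Pool.KAL.coefSum (dmn s) ≤ 1 := by
    unfold dmn
    refine (Pool.KAL.coefSum_prod_le _ _).trans ?_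
    refine Finset.prod_le_one (fun i _ => Pool.KAL.coefSum_nonneg _) fun i _ => ?_
    refine (Pool.KAL.coefSum_pow_le _ _).trans ?_
    rw [Pool.KAL.coefSum_X, one_pow]
  split_ifs
  · have h1 := Pool.KAL.coefSum_C_mul (MvPolynomial.coeff s Q) (dmn s)
    unfold Pool.KAL.coefSum at h1 h0
    rw [h1]
    exact mul_le_of_le_one_right (abs_nonneg _) h0
  · simp

theorem dic_C (a : ℝ) :
    dic (MvPolynomial.C a) = (Polynomial.C (MvPolynomial.C a) : Polynomial (MPt d)) := by
  unfold dic
  rw [MvPolynomial.aeval_C]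
  rfl

theorem dic_X_none :
    dic (MvPolynomial.X none) = (Polynomial.X : Polynomial (MPt d)) := by
  unfold dic
  rw [MvPolynomial.aeval_X]
  rfl

theorem dic_X_some (i : Fin (d + 1)) : dic (MvPolynomial.X (some i)) =
    (Polynomial.C (MvPolynomial.X (ptv i)) : Polynomial (MPt d)) := by
  unfold dic
  rw [MvPolynomial.aeval_X]
  rfl

theorem dic_derivative (Q : MvPolynomial (Option (Fin (d + 1))) ℝ) :
    Polynomial.derivative (dic Q) = dic (MvPolynomial.pderiv none Q) := by
  induction Q using MvPolynomial.induction_on with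
  | C a =>
    have h1 : MvPolynomial.pderiv none (MvPolynomial.C a : MvPolynomial (Option (Fin (d + 1))) ℝ) =
        0 := MvPolynomial.pderiv_C
    have h2 : dic (0 : MvPolynomial (Option (Fin (d + 1))) ℝ) = 0 := (dic (d := d)).map_zero
    rw [h1, h2, dic_C]
    exact Polynomial.derivative_C
  | add p q hp hq =>
    have h1 : dic (p + q) = dic p + dic q := (dic (d := d)).map_add p q
    have h2 : MvPolynomial.pderiv none (p + q) = MvPolynomial.pderiv none p +
        MvPolynomial.pderiv none q := (MvPolynomial.pderiv none).map_add p q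
    have h3 : dic (MvPolynomial.pderiv none p + MvPolynomial.pderiv none q) =
        dic (MvPolynomial.pderiv none p) + dic (MvPolynomial.pderiv none q) :=
      (dic (d := d)).map_add _ _
    have h4 : Polynomial.derivative (dic p + dic q) =
        Polynomial.derivative (dic p) + Polynomial.derivative (dic q) := Polynomial.derivative_add
    rw [h1, h2, h3, h4, hp, hq]
  | mul_X p i hp =>
    have h1 : dic (p * MvPolynomial.X i) = dic p * dic (MvPolynomial.X i) :=
      (dic (d := d)).map_mul p _
    have h2 : MvPolynomial.pderiv none (p * MvPolynomial.X i) =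
        MvPolynomial.pderiv none p * MvPolynomial.X i +
          p * MvPolynomial.pderiv none (MvPolynomial.X i) := MvPolynomial.pderiv_mul
    have h3 : dic (MvPolynomial.pderiv none p * MvPolynomial.X i +
          p * MvPolynomial.pderiv none (MvPolynomial.X i)) =
        dic (MvPolynomial.pderiv none p) * dic (MvPolynomial.X i) +
          dic p * dic (MvPolynomial.pderiv none (MvPolynomial.X i)) :=
      ((dic (d := d)).map_add _ _).trans
        (congrArg₂ (· + ·) ((dic (d := d)).map_mul _ _) ((dic (d := d)).map_mul _ _))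
    have h4 : Polynomial.derivative (dic p * dic (MvPolynomial.X i)) =
        Polynomial.derivative (dic p) * dic (MvPolynomial.X i) +
          dic p * Polynomial.derivative (dic (MvPolynomial.X i)) := Polynomial.derivative_mul
    have h5 : Polynomial.derivative (dic (MvPolynomial.X i)) =
        dic (MvPolynomial.pderiv none (MvPolynomial.X i)) := by
      rcases i with _ | i
      · have e1 : MvPolynomial.pderiv none
            (MvPolynomial.X none : MvPolynomial (Option (Fin (d + 1))) ℝ) = 1 :=
          MvPolynomial.pderiv_X_self _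
        have e2 : dic (1 : MvPolynomial (Option (Fin (d + 1))) ℝ) = 1 := (dic (d := d)).map_one
        rw [e1, e2, dic_X_none]
        exact Polynomial.derivative_X
      · have e1 : MvPolynomial.pderiv none
            (MvPolynomial.X (some i) : MvPolynomial (Option (Fin (d + 1))) ℝ) = 0 :=
          MvPolynomial.pderiv_X_of_ne (by simp)
        have e2 : dic (0 : MvPolynomial (Option (Fin (d + 1))) ℝ) = 0 := (dic (d := d)).map_zero
        rw [e1, e2, dic_X_some]
        exact Polynomial.derivative_C
    rw [h1, h2, h3, h4, hp, h5]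

theorem dic_pN (m : ℕ) (Q : MvPolynomial (Option (Fin (d + 1))) ℝ) :
    Polynomial.derivative^[m] (dic Q) = dic (Pool.IEN.pN m Q) := by
  induction m with
  | zero => rfl
  | succ m ih => rw [Function.iterate_succ_apply', ih, dic_derivative, Pool.IEN.pN_succ]

theorem eval_dic (Q : MvPolynomial (Option (Fin (d + 1))) ℝ) (t : ℝ) (V : Fin d → ℝ) (N : ℝ) :
    ((dic Q).map (MvPolynomial.eval (oel t V))).eval N = MvPolynomial.eval (pnt t V N) Q := by
  have h1 : ((Polynomial.evalRingHom N).comp
      (Polynomial.mapRingHom (MvPolynomial.eval (oel t V)))).comp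
        (dic (d := d)).toRingHom = MvPolynomial.eval (pnt t V N) := by
    refine MvPolynomial.ringHom_ext (fun c => ?_) fun o => ?_
    · simp only [RingHom.comp_apply, AlgHom.toRingHom_eq_coe, RingHom.coe_coe, dic,
        MvPolynomial.aeval_C, Polynomial.coe_mapRingHom, Polynomial.coe_evalRingHom,
        MvPolynomial.eval_C]
      have : (algebraMap ℝ (Polynomial (MPt d))) c = Polynomial.C (MvPolynomial.C c) := rfl
      rw [this, Polynomial.map_C, Polynomial.eval_C, MvPolynomial.eval_C]
    · simp only [RingHom.comp_apply, AlgHom.toRingHom_eq_coe, RingHom.coe_coe, dic,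
        MvPolynomial.aeval_X, Polynomial.coe_mapRingHom, Polynomial.coe_evalRingHom,
        MvPolynomial.eval_X]
      rcases o with _ | i
      · simp [pnt]
      · simp [pnt]
  exact congrArg (fun g : MvPolynomial (Option (Fin (d + 1))) ℝ →+* ℝ => g Q) h1

/-- **The values of the derivatives.** -/
theorem IeD.qv_dic {x : IeD d} {Q : MvPolynomial (Option (Fin (d + 1))) ℝ} (hx : x.Q = dic Q)
    (m : ℕ) (t : ℝ) (V : Fin d → ℝ) (N : ℝ) :
    (m.factorial : ℝ) * x.Qv m t V N = MvPolynomial.eval (pnt t V N) (Pool.IEN.pN m Q) := by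
  rw [← eval_dic, ← dic_pN, ← Polynomial.iterate_derivative_map]
  unfold IeD.Qv
  rw [hx, ← Polynomial.factorial_smul_hasseDeriv]
  simp

theorem IeD.abs_qv_dic {x : IeD d} {Q : MvPolynomial (Option (Fin (d + 1))) ℝ} (hx : x.Q = dic Q)
    (m : ℕ) (t : ℝ) (V : Fin d → ℝ) (N : ℝ) :
    |x.Qv m t V N| ≤ |MvPolynomial.eval (pnt t V N) (Pool.IEN.pN m Q)| := by
  rw [← x.qv_dic hx, abs_mul]
  have h1 : (1 : ℝ) ≤ |(m.factorial : ℝ)| := by
    rw [abs_of_nonneg (by positivity)]
    exact_mod_cast Nat.one_le_iff_ne_zero.2 (Nat.factorial_ne_zero m)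
  exact le_mul_of_one_le_left (abs_nonneg _) h1

theorem IeD.qv_zero {x : IeD d} {Q : MvPolynomial (Option (Fin (d + 1))) ℝ} (hx : x.Q = dic Q)
    (t : ℝ) (V : Fin d → ℝ) (N : ℝ) : x.Qv 0 t V N = MvPolynomial.eval (pnt t V N) Q := by
  have h1 := x.qv_dic hx 0 t V N
  rw [Pool.IEN.pN_zero, Nat.factorial_zero, Nat.cast_one, one_mul] at h1
  exact h1

theorem IeD.qv_one {x : IeD d} {Q : MvPolynomial (Option (Fin (d + 1))) ℝ} (hx : x.Q = dic Q)
    (t : ℝ) (V : Fin d → ℝ) (N : ℝ) :
    x.Qv 1 t V N = MvPolynomial.eval (pnt t V N) (MvPolynomial.pderiv none Q) := by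
  have h1 := x.qv_dic hx 1 t V N
  rw [Pool.IEN.pN_succ, Pool.IEN.pN_zero, Nat.factorial_one, Nat.cast_one, one_mul] at h1
  exact h1

end Pool.JM
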