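import Pool.Agent.H10.JM.IeH

/-!
# From an equation to a graph along a line

`ie`: an equation `Q` whose derivative in the last coordinate is nearly constant along a straight
line on a window has one polynomial graph `HN` over the natural box along the line, which is close
to every polynomial graph `G` which (at one time of the window) passes near the line, satisfies the
equation on the natural box up to `ε |q|` and has no other root nearby (gap).
-/

set_option autoImplicit false

namespace Pool.JM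

open Finset

variable {d : ℕ}

/-- The filtration by the total degree. -/
def filM (σ : Type*) : Fil (MvPolynomial σ ℝ) where
  P := fun n f => f.totalDegree ≤ n
  zero := fun n => by simp
  mono := fun h h1 => h1.trans h
  add := fun {n x y} h1 h2 => (MvPolynomial.totalDegree_add x y).trans (max_le h1 h2)
  neg := fun {n x} h => by rw [MvPolynomial.totalDegree_neg]; exact h
  mul := fun {m n x y} h1 h2 => (MvPolynomial.totalDegree_mul x y).trans (add_le_add h1 h2)

theorem filM_C {σ : Type*} (c : ℝ) : (filM σ).P 0 (MvPolynomial.C c) :=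
  (MvPolynomial.totalDegree_C c).le

theorem filM_X {σ : Type*} (i : σ) : (filM σ).P 1 (MvPolynomial.X i) :=
  (MvPolynomial.totalDegree_X i).le

theorem evT_C (τ : ℝ) (p : Polynomial ℝ) :
    evT (Fin d) τ (MvPolynomial.C p) = MvPolynomial.C (p.eval τ) := by
  unfold evT
  rw [MvPolynomial.map_C]
  rfl

theorem evT_alg (τ c : ℝ) : evT (Fin d) τ (algebraMap ℝ (Bd d) c) = MvPolynomial.C c := by
  rw [MvPolynomial.algebraMap_apply, evT_C]
  simp

theorem totalDegree_evT (τ : ℝ) (f : Bd d) : (evT (Fin d) τ f).totalDegree ≤ f.totalDegree := by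
  unfold MvPolynomial.totalDegree
  refine Finset.sup_mono ?_
  unfold evT
  exact MvPolynomial.support_map_subset _ _

namespace IeD

variable (x : IeD d) {K D : ℕ} {M ϑ : ℝ}

/-- Evaluation at the time `τ` (scaled) and at the natural coordinates `y`. -/
noncomputable def χ (τ : ℝ) (y : Fin d → ℝ) : Bd d →+* ℝ :=
  (MvPolynomial.eval y).comp (evT (Fin d) τ)

theorem χ_alg (τ : ℝ) (y : Fin d → ℝ) (c : ℝ) : χ τ y (algebraMap ℝ (Bd d) c) = c := by
  unfold χ
  rw [RingHom.comp_apply, evT_alg, MvPolynomial.eval_C]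

theorem χ_T (τ : ℝ) (y : Fin d → ℝ) : χ τ y x.T = x.t₀ + x.r * τ := by
  unfold χ T
  rw [RingHom.comp_apply, evT_C, MvPolynomial.eval_C]
  simp

theorem χ_X (τ : ℝ) (y : Fin d → ℝ) (j : Fin d) : χ τ y (MvPolynomial.X j) = y j := by
  unfold χ evT
  rw [RingHom.comp_apply, MvPolynomial.map_X, MvPolynomial.eval_X]

theorem χ_Vl (τ : ℝ) (y : Fin d → ℝ) (j : Fin d) :
    χ τ y (x.Vl j) = x.vl (x.t₀ + x.r * τ) j := by
  rw [x.hom_Vl _ (χ_alg τ y), x.χ_T]

theorem χ_NL (τ : ℝ) (y : Fin d → ℝ) : χ τ y x.NL = x.nl (x.t₀ + x.r * τ) := by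
  rw [x.hom_NL _ (χ_alg τ y), x.χ_T]

/-- The natural coordinates of the image of the chart. -/
theorem om_χ (h : x.OK K D M ϑ) (τ : ℝ) (y : Fin d → ℝ) (j : Fin d) :
    x.om (x.t₀ + x.r * τ) (fun i => χ τ y (x.V i)) j = x.b j * y j := by
  have h1 := x.map_V h (χ τ y) (fun c => χ_alg τ y c) j
  rw [x.χ_T, χ_X] at h1
  unfold om
  simp only []
  rw [h1]
  have h2 : (fun i => χ τ y (x.Vl i)) = x.vl (x.t₀ + x.r * τ) := funext fun i => x.χ_Vl τ y i
  rw [h2, x.χ_Vl]
  simp only [MvPolynomial.aeval_eq_eval, Algebra.algebraMap_self, RingHom.id_apply]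
  ring

/-- Every point is in the image of the chart. -/
theorem χ_surj (h : x.OK K D M ϑ) (hM : 0 < M) (τ : ℝ) (V : Fin d → ℝ) :
    (fun i => χ τ (fun j => x.om (x.t₀ + x.r * τ) V j / x.b j) (x.V i)) = V := by
  refine x.sys_uniq h (x.t₀ + x.r * τ) (x.vl (x.t₀ + x.r * τ)) (x.om (x.t₀ + x.r * τ) V)
    (fun j => ?_) fun j => ?_
  · have h1 := x.map_V h (χ τ (fun j => x.om (x.t₀ + x.r * τ) V j / x.b j)) (fun c => χ_alg τ _ c) j
    rw [x.χ_T, χ_X] at h1
    have h2 : (fun i => χ τ (fun j => x.om (x.t₀ + x.r * τ) V j / x.b j) (x.Vl i)) =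
      x.vl (x.t₀ + x.r * τ) := funext fun i => x.χ_Vl τ _ i
    rw [h2, x.χ_Vl] at h1
    have h3 : (algebraMap ℝ ℝ) (x.b j) * (x.om (x.t₀ + x.r * τ) V j / x.b j) =
        x.om (x.t₀ + x.r * τ) V j := by
      rw [Algebra.algebraMap_self, RingHom.id_apply,
        mul_div_cancel₀ _ (OK.b_pos x h hM j).ne']
    rw [h3] at h1
    exact h1
  · unfold om
    simp only [MvPolynomial.aeval_eq_eval]
    ring

/-- The values of the equation on the chart. -/
theorem χ_hasse (m : ℕ) (G : MPt d) (τ : ℝ) (y : Fin d → ℝ) :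
    χ τ y ((Polynomial.hasseDeriv m (x.Q.map x.φ)).eval (x.φ G)) =
      x.Qv m (x.t₀ + x.r * τ) (fun i => χ τ y (x.V i))
        (MvPolynomial.eval (oel (x.t₀ + x.r * τ) (fun i => χ τ y (x.V i))) G) := by
  have h1 : (χ τ y).comp x.φ =
      MvPolynomial.eval (oel (x.t₀ + x.r * τ) (fun i => χ τ y (x.V i))) := by
    refine MvPolynomial.ringHom_ext (fun c => ?_) fun i => ?_
    · simp only [φ, RingHom.comp_apply, AlgHom.toRingHom_eq_coe, RingHom.coe_coe,
        MvPolynomial.eval_C]
      rw [MvPolynomial.aeval_C]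
      exact χ_alg τ y c
    · simp only [φ, RingHom.comp_apply, AlgHom.toRingHom_eq_coe, RingHom.coe_coe,
        MvPolynomial.eval_X, MvPolynomial.aeval_X]
      rcases i with _ | i
      · exact x.χ_T τ y
      · rfl
  unfold Qv
  rw [hom_hasse, Polynomial.map_map, h1]
  congr 1
  exact congrArg (fun g : MPt d →+* ℝ => g G) h1

theorem χ_φ (G : MPt d) (τ : ℝ) (y : Fin d → ℝ) : χ τ y (x.φ G) =
    MvPolynomial.eval (oel (x.t₀ + x.r * τ) (fun i => χ τ y (x.V i))) G := by
  have h1 : (χ τ y).comp x.φ =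
      MvPolynomial.eval (oel (x.t₀ + x.r * τ) (fun i => χ τ y (x.V i))) := by
    refine MvPolynomial.ringHom_ext (fun c => ?_) fun i => ?_
    · simp only [φ, RingHom.comp_apply, AlgHom.toRingHom_eq_coe, RingHom.coe_coe,
        MvPolynomial.eval_C]
      rw [MvPolynomial.aeval_C]
      exact χ_alg τ y c
    · simp only [φ, RingHom.comp_apply, AlgHom.toRingHom_eq_coe, RingHom.coe_coe,
        MvPolynomial.eval_X, MvPolynomial.aeval_X]
      rcases i with _ | i
      · exact x.χ_T τ y
      · rfl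
  exact congrArg (fun g : MPt d →+* ℝ => g G) h1

/-! ### Back to the absolute coordinates -/

/-- The line as polynomials in the time. -/
noncomputable def lp (j : Fin d) : MPt d :=
  MvPolynomial.C (x.A j) + MvPolynomial.X none * MvPolynomial.C (x.Bv j)

/-- The natural coordinates as polynomials. -/
noncomputable def op (j : Fin d) : MPt d :=
  (MvPolynomial.X (some j) - x.H j) -
    (x.lp j - MvPolynomial.aeval (oel (MvPolynomial.X none) x.lp) (x.H j))

/-- The scaled time. -/
noncomputable def tp : MPt d :=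
  MvPolynomial.C (1 / x.r) * (MvPolynomial.X none - MvPolynomial.C x.t₀)

/-- From the natural coordinates to the absolute ones. -/
noncomputable def Θ : Bd d →+* MPt d :=
  MvPolynomial.eval₂Hom (Polynomial.eval₂RingHom MvPolynomial.C x.tp)
    (fun j => MvPolynomial.C (1 / x.b j) * x.op j)

theorem eval_op (t : ℝ) (V : Fin d → ℝ) (j : Fin d) :
    MvPolynomial.eval (oel t V) (x.op j) = x.om t V j := by
  unfold op om
  have h1 : MvPolynomial.eval (oel t V) (x.lp j) = x.vl t j := by
    unfold lp vl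
    simp [oel]
  have h2 : MvPolynomial.eval (oel t V)
      (MvPolynomial.aeval (oel (MvPolynomial.X none) x.lp) (x.H j)) =
      MvPolynomial.eval (oel t (x.vl t)) (x.H j) := by
    have h3 : ((MvPolynomial.eval (oel t V)).comp
        (MvPolynomial.aeval (oel (MvPolynomial.X none) x.lp)).toRingHom) =
          MvPolynomial.eval (oel t (x.vl t)) := by
      refine MvPolynomial.ringHom_ext (fun c => ?_) fun i => ?_
      · simp only [RingHom.comp_apply, AlgHom.toRingHom_eq_coe, RingHom.coe_coe,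
          MvPolynomial.eval_C]
        rw [MvPolynomial.aeval_C, MvPolynomial.algebraMap_eq, MvPolynomial.eval_C]
      · simp only [RingHom.comp_apply, AlgHom.toRingHom_eq_coe, RingHom.coe_coe,
          MvPolynomial.eval_X, MvPolynomial.aeval_X]
        rcases i with _ | i
        · simp [oel]
        · have : MvPolynomial.eval (oel t V) (x.lp i) = x.vl t i := by
            unfold lp vl
            simp [oel]
          exact this
    exact congrArg (fun g : MPt d →+* ℝ => g (x.H j)) h3
  rw [map_sub, map_sub, map_sub, h1, h2, MvPolynomial.eval_X]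
  rfl

theorem eval_Θ (hr : x.r ≠ 0) (t : ℝ) (V : Fin d → ℝ) (f : Bd d) :
    MvPolynomial.eval (oel t V) (x.Θ f) =
      χ ((t - x.t₀) / x.r) (fun j => x.om t V j / x.b j) f := by
  have h1 : (MvPolynomial.eval (oel t V)).comp x.Θ =
      χ ((t - x.t₀) / x.r) (fun j => x.om t V j / x.b j) := by
    refine MvPolynomial.ringHom_ext (fun p => ?_) fun i => ?_
    · have h2 : ((MvPolynomial.eval (oel t V)).comp x.Θ).comp MvPolynomial.C =
          (χ ((t - x.t₀) / x.r) (fun j => x.om t V j / x.b j)).comp MvPolynomial.C := by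
        refine Polynomial.ringHom_ext (fun c => ?_) ?_
        · simp only [RingHom.comp_apply, Θ, MvPolynomial.eval₂Hom_C, Polynomial.coe_eval₂RingHom,
            Polynomial.eval₂_C, MvPolynomial.eval_C, χ, evT_C, Polynomial.eval_C]
        · simp only [RingHom.comp_apply, Θ, MvPolynomial.eval₂Hom_C, Polynomial.coe_eval₂RingHom,
            Polynomial.eval₂_X, MvPolynomial.eval_C, χ, evT_C, Polynomial.eval_X, tp, map_mul,
            map_sub, MvPolynomial.eval_X]
          simp only [oel, Option.elim]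
          field_simp
      exact congrArg (fun g : Polynomial ℝ →+* ℝ => g p) h2
    · rw [RingHom.comp_apply, χ_X]
      unfold Θ
      rw [MvPolynomial.eval₂Hom_X', map_mul, MvPolynomial.eval_C, x.eval_op, one_div,
        inv_mul_eq_div]
  exact congrArg (fun g : Bd d →+* ℝ => g f) h1

theorem deg_op (h : x.OK K D M ϑ) (j : Fin d) : (x.op j).totalDegree ≤ K + 1 := by
  have h1 : (filM (Option (Fin d))).P 1 (x.lp j) := by
    refine (filM _).add ((filM _).mono (Nat.zero_le _) (filM_C _)) ?_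
    have := (filM _).mul (filM_X (none : Option (Fin d))) (filM_C (x.Bv j))
    exact this
  have h2 : (filM (Option (Fin d))).P (K * 1)
      (MvPolynomial.aeval (oel (MvPolynomial.X none) x.lp) (x.H j)) := by
    refine (filM _).aeval (fun c => ?_) _ ?_ _ (h.deg j)
    · rw [MvPolynomial.algebraMap_eq]
      exact filM_C c
    · intro i
      rcases i with _ | i
      · exact filM_X _
      · refine (filM _).add ((filM _).mono (Nat.zero_le _) (filM_C _)) ?_
        have := (filM _).mul (filM_X (none : Option (Fin d))) (filM_C (x.Bv i))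
        exact this
  have h3 : (filM (Option (Fin d))).P (K + 1) (x.op j) := by
    unfold op
    refine (filM _).sub ((filM _).sub ?_ ?_) ((filM _).sub ?_ ?_)
    · exact (filM _).mono (by omega) (filM_X _)
    · exact (filM _).mono (by omega) (h.deg j)
    · exact (filM _).mono (by omega) h1
    · exact (filM _).mono (by omega) h2
  exact h3

theorem deg_Θ (h : x.OK K D M ϑ) {K₁ a : ℕ} {f : Bd d} (hf : f.totalDegree ≤ K₁)
    (ha : ∀ s, (MvPolynomial.coeff s f).natDegree ≤ a) :
    (x.Θ f).totalDegree ≤ a + K₁ * (K + 1) := by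
  have h1 : (filM (Option (Fin d))).P 0 1 := by
    have := filM_C (σ := Option (Fin d)) 1
    rwa [MvPolynomial.C_1] at this
  have htp : (filM (Option (Fin d))).P 1 x.tp := by
    unfold tp
    have h2 := (filM (Option (Fin d))).mul (filM_C (1 / x.r)) ((filM (Option (Fin d))).sub
      (filM_X none) ((filM (Option (Fin d))).mono (Nat.zero_le 1) (filM_C x.t₀)))
    exact h2
  have h3 : (filM (Option (Fin d))).P (a + K₁ * (K + 1)) (x.Θ f) := by
    unfold Θ
    rw [MvPolynomial.coe_eval₂Hom, MvPolynomial.eval₂_eq]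
    refine (filM _).sum _ _ fun s hs => ?_
    refine (filM _).mul ?_ ?_
    · rw [Polynomial.coe_eval₂RingHom, Polynomial.eval₂_eq_sum_range]
      refine (filM _).sum _ _ fun i hi => ?_
      rw [mem_range] at hi
      have h4 := (filM (Option (Fin d))).mul (filM_C ((MvPolynomial.coeff s f).coeff i))
        ((filM (Option (Fin d))).pow' h1 htp i)
      refine (filM _).mono ?_ h4
      have := ha s
      omega
    · have h5 : (filM (Option (Fin d))).P (∑ i ∈ s.support, s i * (K + 1))
          (∏ i ∈ s.support, (MvPolynomial.C (1 / x.b i) * x.op i) ^ s i) := by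
        refine (filM _).prod h1 _ _ _ fun i _ => (filM _).pow' h1 ?_ _
        have := (filM (Option (Fin d))).mul (filM_C (1 / x.b i)) (x.deg_op h i)
        rwa [zero_add] at this
      refine (filM _).mono ?_ h5
      rw [← Finset.sum_mul]
      exact Nat.mul_le_mul_right _ ((MvPolynomial.le_totalDegree hs).trans hf)
  exact h3

end IeD

/-- **From an equation to a graph along a line.** -/
theorem ie (d D K k : ℕ) : ∃ (K' : ℕ) (C : ℝ), 1 ≤ C ∧ ∀ (M ϑ : ℝ), C ≤ M → 1 ≤ M * ϑ →
    ϑ ^ k * M ≤ 1 → ∀ x : IeD d, x.OK K D M ϑ → ∃ HN : MPt d, HN.totalDegree ≤ K' ∧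
      ∀ t, |t - x.t₀| ≤ x.r → ∀ G : MPt d, G.totalDegree ≤ K → ∀ (ε : ℝ) (P : ℕ → ℝ),
        1 ≤ M * ε →
        (∀ V, x.Box t V → C * |x.Qv 0 t V (MvPolynomial.eval (oel t V) G) -
          x.Qv 0 t (x.vl t) (x.nl t)| ≤ |x.q t| * ε) →
        (∀ V, x.Box t V → C * |x.Qv 1 t V (MvPolynomial.eval (oel t V) G) - x.q t| ≤ |x.q t|) →
        (∀ m < D, ∀ V, x.Box t V → |x.Qv (m + 2) t V (MvPolynomial.eval (oel t V) G)| ≤ P m) →
        (∀ m < D, C * (P m * (4 * ε) ^ (m + 1)) ≤ |x.q t|) →
        |MvPolynomial.eval (oel t (x.vl t)) G - x.nl t| ≤ ε →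
        ∀ V, x.Box t V →
          |MvPolynomial.eval (oel t V) HN - MvPolynomial.eval (oel t V) G| ≤ 4 * ε := by
  classical
  obtain ⟨a₁, ha₁⟩ : ∃ a₁ : ℕ, a₁ = (IeD.dV K)^[d] 1 := ⟨_, rfl⟩
  obtain ⟨K₁, hK₁⟩ : ∃ K₁ : ℕ, K₁ = K * a₁ + 1 := ⟨_, rfl⟩
  obtain ⟨K₂, hK₂⟩ : ∃ K₂ : ℕ, K₂ = D * a₁ + D * (K * a₁) := ⟨_, rfl⟩
  obtain ⟨a, C₁, hC₁, h1⟩ := ie_h d D K K₁ k
  obtain ⟨C₂, hC₂, h2⟩ := nrm_le_sup d K₂
  have h2k : (0 : ℝ) < 2 ^ k := by positivity
  have hDC : (0 : ℝ) ≤ 8 * D * C₂ := by positivity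
  refine ⟨a + K₁ * (K + 1) + 1, C₁ + 4 * C₂ + 8 * D * C₂ + 2 ^ k, by linarith, ?_⟩
  intro M ϑ hM hϑ1 hϑk x hx
  have hM4 : 4 ≤ M := by linarith
  have hM0 : 0 < M := by linarith
  have hr := IeD.OK.r_pos x hx hM0
  obtain ⟨h, hh1, hh2, hh3, hh4⟩ := h1 M ϑ (by linarith) hϑ1 hϑk x hx
  refine ⟨MvPolynomial.C x.AN + MvPolynomial.C x.BN * MvPolynomial.X none + x.Θ h, ?_, ?_⟩
  · have b1 : (filM (Option (Fin d))).P (a + K₁ * (K + 1) + 1)
        (MvPolynomial.C x.AN + MvPolynomial.C x.BN * MvPolynomial.X none + x.Θ h) := by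
      refine (filM _).add ((filM _).add ?_ ?_) ?_
      · exact (filM _).mono (Nat.zero_le _) (filM_C _)
      · have := (filM _).mul (filM_C x.BN) (filM_X (none : Option (Fin d)))
        exact (filM _).mono (by omega) this
      · exact (filM _).mono (Nat.le_succ _) (x.deg_Θ hx hh1 hh2)
    exact b1
  intro t ht G hG ε P hε h0 hd1 hdm hgap hline V hV
  obtain ⟨τ, hτ⟩ : ∃ τ : ℝ, τ = (t - x.t₀) / x.r := ⟨_, rfl⟩
  have htτ : x.t₀ + x.r * τ = t := by
    rw [hτ]
    field_simp
    ring
  have hτ1 : |τ| ≤ 1 := by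
    rw [hτ, abs_div, abs_of_pos hr, div_le_one hr]
    exact ht
  have hε0 : 0 < ε := by
    by_contra hc
    push Not at hc
    nlinarith
  -- the derivative at `t`
  obtain ⟨qt, hqt⟩ : ∃ qt : ℝ, qt = x.q t := ⟨_, rfl⟩
  rw [← hqt] at h0 hd1 hgap
  have hϑhalf : ϑ ≤ 1 / 2 := by
    by_contra hc
    push Not at hc
    have c1 : (1 : ℝ) ≤ (2 * ϑ) ^ k := one_le_pow₀ (by linarith)
    rw [mul_pow] at c1
    have c2 : M ≤ 2 ^ k := by
      calc M = M * 1 := (mul_one M).symm
        _ ≤ M * (2 ^ k * ϑ ^ k) := mul_le_mul_of_nonneg_left c1 hM0.le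
        _ = 2 ^ k * (ϑ ^ k * M) := by ring
        _ ≤ 2 ^ k * 1 := mul_le_mul_of_nonneg_left hϑk h2k.le
        _ = 2 ^ k := mul_one _
    linarith
  have hq1 : 1 ≤ 2 * M * |qt| := by
    have b1 := hx.qv t ht
    rw [← hqt] at b1
    have b2 := hx.q0
    have b3 : |x.q x.t₀| ≤ |qt| + |qt - x.q x.t₀| := by
      have := abs_sub_abs_le_abs_sub (x.q x.t₀) qt
      rw [abs_sub_comm] at this
      linarith
    have b4 : ϑ * |x.q x.t₀| ≤ 1 / 2 * |x.q x.t₀| :=
      mul_le_mul_of_nonneg_right hϑhalf (abs_nonneg _)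
    nlinarith [abs_nonneg (x.q x.t₀)]
  have hqt0 : 0 < |qt| := by
    by_contra hc
    push Not at hc
    nlinarith
  -- the ring homomorphism
  obtain ⟨ev, hev⟩ : ∃ ev : Bd d →+* MvPolynomial (Fin d) ℝ, ev = evT (Fin d) τ := ⟨_, rfl⟩
  obtain ⟨f, hf⟩ : ∃ f : Polynomial (MvPolynomial (Fin d) ℝ), f = (x.Q.map x.φ).map ev :=
    ⟨_, rfl⟩
  have hfD : f.natDegree ≤ D := by
    rw [hf]
    exact (Polynomial.natDegree_map_le.trans Polynomial.natDegree_map_le).trans hx.Qn
  obtain ⟨e, he⟩ : ∃ e : MvPolynomial (Fin d) ℝ, e = ev h + ev x.NL - ev (x.φ G) := ⟨_, rfl⟩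
  obtain ⟨c₀, hc₀⟩ : ∃ c₀ : ℝ, c₀ = (IeD.κ d (x.Rm 0)).eval τ := ⟨_, rfl⟩
  have hc₀' : c₀ = x.Qv 0 t (x.vl t) (x.nl t) := by
    rw [hc₀, x.κ_Rm_eval hx, htτ]
  obtain ⟨S, hS⟩ : ∃ S : ℕ → MvPolynomial (Fin d) ℝ, S = fun m =>
    (Polynomial.hasseDeriv m f).eval (ev (x.φ G)) - if m = 0 then MvPolynomial.C c₀ else 0 :=
      ⟨_, rfl⟩
  have hSm : ∀ m, m ≠ 0 → S m = (Polynomial.hasseDeriv m f).eval (ev (x.φ G)) := by
    intro m hm
    rw [hS]
    simp only [if_neg hm, sub_zero]
  have hS0 : S 0 = (Polynomial.hasseDeriv 0 f).eval (ev (x.φ G)) - MvPolynomial.C c₀ := by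
    rw [hS]
    simp only [if_true]
  have hhas : ∀ m, (Polynomial.hasseDeriv m f).eval (ev (x.φ G)) =
      ev ((Polynomial.hasseDeriv m (x.Q.map x.φ)).eval (x.φ G)) := by
    intro m
    rw [hom_hasse ev, hf]
  -- the values
  have hval : ∀ (m : ℕ) (y : Fin d → ℝ), MvPolynomial.eval y
      ((Polynomial.hasseDeriv m f).eval (ev (x.φ G))) =
      x.Qv m t (fun i => IeD.χ τ y (x.V i))
        (MvPolynomial.eval (oel t (fun i => IeD.χ τ y (x.V i))) G) := by
    intro m y
    rw [hhas, hev]
    have := x.χ_hasse m G τ y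
    rw [htτ] at this
    exact this
  have hbox : ∀ y : Fin d → ℝ, (∀ i, |y i| ≤ 1) → x.Box t (fun i => IeD.χ τ y (x.V i)) := by
    intro y hy j
    have b1 := x.om_χ hx τ y j
    rw [htτ] at b1
    rw [b1, abs_mul, abs_of_pos (IeD.OK.b_pos x hx hM0 j)]
    have := hy j
    have b2 := (IeD.OK.b_pos x hx hM0 j)
    nlinarith
  have hcube : ∀ y : Fin d → ℝ, (∀ i, 0 ≤ y i ∧ y i ≤ 1) → ∀ i, |y i| ≤ 1 := by
    intro y hy i
    rw [abs_of_nonneg (hy i).1]
    exact (hy i).2
  have hdeg : ∀ m, ((Polynomial.hasseDeriv m f).eval (ev (x.φ G))).totalDegree ≤ K₂ := by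
    intro m
    rw [hhas, hev]
    refine (totalDegree_evT τ _).trans ?_
    have b1 := hasse_fil (filT (Fin d)) (fun n => filT_nat n) (x.Q.map x.φ)
      ((Polynomial.natDegree_map_le).trans hx.Qn) m (x.φ G) (a := D * a₁) (b := K * a₁) ?_ ?_
    · rw [hK₂]
      exact b1.1
    · intro n
      rw [Polynomial.coeff_map, ha₁]
      exact x.fil_φ hx _ (hx.Qd n)
    · rw [ha₁]
      exact x.fil_φ hx _ hG
  have hK1top : ∀ g : MvPolynomial (Fin d) ℝ, nrm absS K₁ (zero_le_one' ℝ) g ≤
      nrm absS ⊤ (zero_le_one' ℝ) g := fun g => nrm_top absS _ g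
  -- the comparison
  have key : nrm absS K₁ (zero_le_one' ℝ) e < 4 * ε := by
    refine cmp (D := D) (q := qt) (zero_le_one' ℝ) S e (ev (Fv x.cm D h)) hqt0 hε0 ?_ ?_ ?_ ?_ ?_ ?_
    · -- the identity
      have b1 : ∑ m ∈ range (D + 2), S m * e ^ m = f.eval (ev (x.φ G) + e) -
          MvPolynomial.C c₀ := by
        rw [taylor_sum f hfD, Finset.sum_range_succ', Finset.sum_range_succ' _ (D + 1), hS0]
        have : ∀ m ∈ range (D + 1), S (m + 1) * e ^ (m + 1) =
            (Polynomial.hasseDeriv (m + 1) f).eval (ev (x.φ G)) * e ^ (m + 1) := by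
          intro m _
          rw [hSm _ (Nat.succ_ne_zero m)]
        rw [Finset.sum_congr rfl this]
        ring
      have b2 : ev (Fv x.cm D h) = f.eval (ev x.NL + ev h) - MvPolynomial.C c₀ := by
        have b3 : ∀ m, ev (x.Rm m) = (Polynomial.hasseDeriv m f).eval (ev x.NL) := by
          intro m
          unfold IeD.Rm
          rw [hom_hasse ev, hf]
        have b4 : ev (MvPolynomial.C (IeD.κ d (x.Rm 0))) = MvPolynomial.C c₀ := by
          rw [hev, evT_C, hc₀]
        rw [taylor_sum f hfD]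
        unfold Fv
        rw [map_sum, Finset.sum_range_succ', Finset.sum_range_succ' _ (D + 1)]
        have b5 : ∀ m ∈ range (D + 1), ev (x.cm (m + 1) * h ^ (m + 1)) =
            (Polynomial.hasseDeriv (m + 1) f).eval (ev x.NL) * ev h ^ (m + 1) := by
          intro m _
          rw [map_mul, map_pow, ← b3]
          unfold IeD.cm
          rw [if_neg (Nat.succ_ne_zero m)]
        rw [Finset.sum_congr rfl b5]
        have b6 : ev (x.cm 0 * h ^ 0) = (Polynomial.hasseDeriv 0 f).eval (ev x.NL) * ev h ^ 0 -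
            MvPolynomial.C c₀ := by
          rw [pow_zero, pow_zero, mul_one, mul_one]
          unfold IeD.cm
          rw [if_pos rfl, map_sub, b3, b4]
        rw [b6]
        ring
      rw [b1, b2, he]
      congr 2
      ring
    · -- the equation
      refine (hK1top _).trans ?_
      have b1 := h2 (S 0) (|qt| * ε / C₂) ?_ ?_
      · refine b1.trans (le_of_eq ?_)
        field_simp
      · rw [hS0]
        refine (MvPolynomial.totalDegree_sub _ _).trans (max_le (hdeg 0) ?_)
        rw [MvPolynomial.totalDegree_C]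
        exact Nat.zero_le _
      · intro y hy
        rw [hS0, map_sub, MvPolynomial.eval_C, hval 0 y, hc₀', le_div_iff₀ (by linarith), mul_comm]
        refine le_trans ?_ (h0 _ (hbox y (hcube y hy)))
        exact mul_le_mul_of_nonneg_right (by linarith) (abs_nonneg _)
    · -- the derivative
      refine (hK1top _).trans ?_
      have b1 := h2 (S 1 - MvPolynomial.C qt) (|qt| / (4 * C₂)) ?_ ?_
      · refine b1.trans (le_of_eq ?_)
        field_simp
      · rw [hSm 1 one_ne_zero]
        refine (MvPolynomial.totalDegree_sub _ _).trans (max_le (hdeg 1) ?_)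
        rw [MvPolynomial.totalDegree_C]
        exact Nat.zero_le _
      · intro y hy
        rw [hSm 1 one_ne_zero, map_sub, MvPolynomial.eval_C, hval 1 y, le_div_iff₀ (by linarith),
          mul_comm]
        refine le_trans ?_ (hd1 _ (hbox y (hcube y hy)))
        exact mul_le_mul_of_nonneg_right (by linarith) (abs_nonneg _)
    · -- the error
      have b1 : nrm absS K₁ (zero_le_one' ℝ) (ev (Fv x.cm D h)) ≤
          nrm l1 K₁ (zero_le_one' ℝ) (Fv x.cm D h) := by
        rw [hev]
        exact nrm_evT _ hτ1 _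
      refine b1.trans ?_
      have b2 : 1 ≤ 2 * M ^ 2 * (|qt| * ε) := by
        calc (1 : ℝ) = 1 * 1 := (one_mul 1).symm
          _ ≤ (2 * M * |qt|) * (M * ε) := mul_le_mul hq1 hε zero_le_one (by positivity)
          _ = _ := by ring
      have b3 : 0 < |qt| * ε := mul_pos hqt0 hε0
      have b4 : 2 * M ^ 2 ≤ M ^ 3 := by nlinarith [pow_pos hM0 2]
      have b5 : 1 ≤ M ^ 3 * (|qt| * ε) := b2.trans (mul_le_mul_of_nonneg_right b4 b3.le)
      exact le_of_mul_le_mul_left (hh4.trans b5) (by positivity)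
    · -- the gap
      have b1 : ∀ m ∈ range D, nrm absS K₁ (zero_le_one' ℝ) (S (m + 2)) * (4 * ε) ^ (m + 1) ≤
          |qt| / (8 * D) := by
        intro m hm
        rw [mem_range] at hm
        have hD : (0 : ℝ) < D := by
          exact_mod_cast (by omega : 0 < D)
        have b2 : nrm absS K₁ (zero_le_one' ℝ) (S (m + 2)) ≤ C₂ * P m := by
          refine (hK1top _).trans (h2 _ _ ?_ fun y hy => ?_)
          · rw [hSm _ (by omega)]
            exact hdeg _
          · rw [hSm _ (by omega), hval (m + 2) y]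
            exact hdm m hm _ (hbox y (hcube y hy))
        have hP : 0 ≤ P m := by
          have b3 := apply_nonneg (nrm absS K₁ (zero_le_one' ℝ)) (S (m + 2))
          by_contra hc
          push Not at hc
          nlinarith
        have b4 : 0 ≤ P m * (4 * ε) ^ (m + 1) := by positivity
        have b5 := hgap m hm
        have b6 : 8 * D * C₂ * (P m * (4 * ε) ^ (m + 1)) ≤ |qt| :=
          le_trans (mul_le_mul_of_nonneg_right (by linarith) b4) b5
        rw [le_div_iff₀ (by positivity)]
        calc nrm absS K₁ (zero_le_one' ℝ) (S (m + 2)) * (4 * ε) ^ (m + 1) * (8 * D)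
            ≤ C₂ * P m * (4 * ε) ^ (m + 1) * (8 * D) := by gcongr
          _ = 8 * D * C₂ * (P m * (4 * ε) ^ (m + 1)) := by ring
          _ ≤ |qt| := b6
      refine (Finset.sum_le_sum b1).trans ?_
      rw [Finset.sum_const, card_range, nsmul_eq_mul]
      rcases Nat.eq_zero_or_pos D with hD | hD
      · rw [hD]
        simp only [Nat.cast_zero, zero_mul]
        positivity
      · have hD' : (0 : ℝ) < D := by exact_mod_cast hD
        refine le_of_eq ?_
        field_simp
    · -- the origin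
      have b1 : MvPolynomial.coeff 0 e = MvPolynomial.eval (0 : Fin d → ℝ) e := by
        rw [← MvPolynomial.constantCoeff_eq, MvPolynomial.eval_zero]
      have b2 : MvPolynomial.eval (0 : Fin d → ℝ) (ev h) = 0 := by
        rw [MvPolynomial.eval_zero, MvPolynomial.constantCoeff_eq, hev, coeff_evT]
        have : MvPolynomial.coeff 0 h = 0 := by
          have := hh3
          unfold IeD.κ at this
          rwa [MvPolynomial.constantCoeff_eq] at this
        rw [this, Polynomial.eval_zero]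
      have b3 : MvPolynomial.eval (0 : Fin d → ℝ) (ev x.NL) = x.nl t := by
        have := x.χ_NL τ (0 : Fin d → ℝ)
        rw [htτ] at this
        rw [hev]
        exact this
      have b4 : MvPolynomial.eval (0 : Fin d → ℝ) (ev (x.φ G)) =
          MvPolynomial.eval (oel t (x.vl t)) G := by
        have c1 := x.χ_φ G τ (0 : Fin d → ℝ)
        rw [htτ] at c1
        have c2 : (fun i => IeD.χ τ (0 : Fin d → ℝ) (x.V i)) = x.vl t := by
          refine x.sys_uniq hx t (x.vl t) (fun _ => 0) (fun j => ?_) fun j => ?_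
          · have d1 := x.map_V hx (IeD.χ τ (0 : Fin d → ℝ)) (fun c => IeD.χ_alg τ _ c) j
            rw [x.χ_T, IeD.χ_X, htτ] at d1
            have d2 : (fun i => IeD.χ τ (0 : Fin d → ℝ) (x.Vl i)) = x.vl t := by
              funext i
              rw [x.χ_Vl, htτ]
            rw [d2, x.χ_Vl, htτ] at d1
            rw [Pi.zero_apply, mul_zero] at d1
            exact d1
          · simp
        rw [c2] at c1
        rw [hev]
        exact c1
      rw [b1, he, map_sub, map_add, b2, b3, b4, zero_add, abs_sub_comm]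
      linarith
  -- the value at the given point
  obtain ⟨y, hy⟩ : ∃ y : Fin d → ℝ, y = fun j => x.om t V j / x.b j := ⟨_, rfl⟩
  have hy1 : ∀ j, |y j| ≤ 1 := by
    intro j
    have b1 := IeD.OK.b_pos x hx hM0 j
    rw [hy]
    simp only []
    rw [abs_div, abs_of_pos b1, div_le_one b1]
    exact hV j
  have hedeg : e.totalDegree ≤ K₁ := by
    rw [he]
    refine (MvPolynomial.totalDegree_sub _ _).trans (max_le ?_ ?_)
    · refine (MvPolynomial.totalDegree_add _ _).trans (max_le ?_ ?_)
      · rw [hev]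
        exact (totalDegree_evT τ _).trans hh1
      · rw [hev]
        refine (totalDegree_evT τ _).trans ((x.fil_NL).1.trans ?_)
        omega
    · rw [hev]
      refine (totalDegree_evT τ _).trans ((x.fil_φ hx _ hG).1.trans ?_)
      rw [hK₁, ha₁]
      omega
  have hfin := abs_eval_le (zero_le_one' ℝ) e hedeg y hy1
  have hsurj : (fun i => IeD.χ τ y (x.V i)) = V := by
    have := x.χ_surj hx hM0 τ V
    rw [htτ] at this
    rw [hy]
    exact this
  have e1 : MvPolynomial.eval y e = MvPolynomial.eval (oel t V) (MvPolynomial.C x.AN +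
      MvPolynomial.C x.BN * MvPolynomial.X none + x.Θ h) - MvPolynomial.eval (oel t V) G := by
    have f1 : MvPolynomial.eval y (ev h) = MvPolynomial.eval (oel t V) (x.Θ h) := by
      rw [x.eval_Θ hr.ne', hev, ← hτ, ← hy]
      rfl
    have f2 : MvPolynomial.eval y (ev x.NL) = x.nl t := by
      have := x.χ_NL τ y
      rw [htτ] at this
      rw [hev]
      exact this
    have f3 : MvPolynomial.eval y (ev (x.φ G)) = MvPolynomial.eval (oel t V) G := by
      have c1 := x.χ_φ G τ y
      rw [htτ, hsurj] at c1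
      rw [hev]
      exact c1
    rw [he, map_sub, map_add, f1, f2, f3, map_add, map_add, map_mul, MvPolynomial.eval_C,
      MvPolynomial.eval_C, MvPolynomial.eval_X]
    unfold IeD.nl
    simp only [oel, Option.elim]
    ring
  rw [e1] at hfin
  linarith

end Pool.JM
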