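import Pool.Agent.H10.JM.Trn

/-!
# From an equation to a graph along a line: the data

`IeD d`: a chart `H` of the base (`d` coordinates, triangular), natural widths `b`, a straight line,
a window `|t - t₀| ≤ r` and an equation `Q`, a polynomial in the last coordinate whose coefficients
are polynomials in the time and the base coordinates.
-/

set_option autoImplicit false

namespace Pool.JM

open Finset

/-- Polynomials in the time (`none`) and the base coordinates. -/
abbrev MPt (d : ℕ) := MvPolynomial (Option (Fin d)) ℝ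

/-- Polynomials in the natural coordinates with coefficients in the time. -/
abbrev Bd (d : ℕ) := MvPolynomial (Fin d) (Polynomial ℝ)

/-- The point `(t, V)`. -/
def oel {B : Type*} {d : ℕ} (t : B) (V : Fin d → B) : Option (Fin d) → B := fun o => o.elim t V

open Polynomial in
theorem hom_hasse {R S : Type*} [CommRing R] [CommRing S] (χ : R →+* S) (f : R[X]) (m : ℕ) (x : R) :
    χ ((hasseDeriv m f).eval x) = (hasseDeriv m (f.map χ)).eval (χ x) := by
  rw [hasse_eval f le_rfl, hasse_eval (f.map χ) (natDegree_map_le (p := f) (f := χ)), map_sum]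
  refine Finset.sum_congr rfl fun n _ => ?_
  rw [map_mul, map_mul, map_pow, map_natCast, coeff_map]

/-- The data. -/
structure IeD (d : ℕ) where
  /-- the chart of the base -/
  H : Fin d → MPt d
  /-- the natural widths -/
  b : Fin d → ℝ
  /-- the line -/
  A : Fin d → ℝ
  Bv : Fin d → ℝ
  AN : ℝ
  BN : ℝ
  /-- the window -/
  t₀ : ℝ
  r : ℝ
  /-- the equation -/
  Q : Polynomial (MPt d)

namespace IeD

variable {d : ℕ} (x : IeD d)

/-- The base coordinates of the line. -/
def vl (t : ℝ) (j : Fin d) : ℝ := x.A j + t * x.Bv j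

/-- The last coordinate of the line. -/
def nl (t : ℝ) : ℝ := x.AN + t * x.BN

/-- The natural coordinates relative to the line (not divided by the widths). -/
noncomputable def om (t : ℝ) (V : Fin d → ℝ) (j : Fin d) : ℝ :=
  (V j - MvPolynomial.eval (oel t V) (x.H j)) -
    (x.vl t j - MvPolynomial.eval (oel t (x.vl t)) (x.H j))

/-- The natural box around the line. -/
def Box (t : ℝ) (V : Fin d → ℝ) : Prop := ∀ j, |x.om t V j| ≤ x.b j

/-- The value of the `m`-th derivative (divided by `m!`) of the equation in the last coordinate. -/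
noncomputable def Qv (m : ℕ) (t : ℝ) (V : Fin d → ℝ) (N : ℝ) : ℝ :=
  (Polynomial.hasseDeriv m (x.Q.map (MvPolynomial.eval (oel t V)))).eval N

/-- The derivative along the line. -/
noncomputable def q (t : ℝ) : ℝ := x.Qv 1 t (x.vl t) (x.nl t)

/-- The assumptions. -/
structure OK (K D : ℕ) (M ϑ : ℝ) : Prop where
  dep : ∀ j, ∀ i ∈ (x.H j).vars, ∀ i', i = some i' → i' < j
  deg : ∀ j, (x.H j).totalDegree ≤ K
  cs : ∀ j, Pool.KAL.coefSum (x.H j) ≤ M
  b0 : ∀ j, 1 ≤ M * x.b j
  b1 : ∀ j, x.b j ≤ M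
  A1 : ∀ j, |x.A j| ≤ M
  B1 : ∀ j, |x.Bv j| ≤ M
  AN1 : |x.AN| ≤ M
  BN1 : |x.BN| ≤ M
  t1 : |x.t₀| ≤ M
  r0 : 1 ≤ M * x.r
  r1 : x.r ≤ M
  Qn : x.Q.natDegree ≤ D
  Qd : ∀ m, (x.Q.coeff m).totalDegree ≤ D
  Qc : ∀ m, Pool.KAL.coefSum (x.Q.coeff m) ≤ M
  q0 : 1 ≤ M * |x.q x.t₀|
  qv : ∀ t, |t - x.t₀| ≤ x.r → |x.q t - x.q x.t₀| ≤ ϑ * |x.q x.t₀|

/-! ### The ring of the natural coordinates -/

/-- The time. -/
noncomputable def T : Bd d :=
  MvPolynomial.C (Polynomial.C x.t₀ + Polynomial.C x.r * Polynomial.X)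

/-- The line. -/
noncomputable def Vl (j : Fin d) : Bd d :=
  algebraMap ℝ (Bd d) (x.A j) + algebraMap ℝ (Bd d) (x.Bv j) * x.T

/-- The last coordinate of the line. -/
noncomputable def NL : Bd d := algebraMap ℝ (Bd d) x.AN + algebraMap ℝ (Bd d) x.BN * x.T

/-- The triangular system of the chart. -/
noncomputable def Pm (v : Fin d → Bd d) (j : Fin d) : Bd d :=
  x.Vl j + (MvPolynomial.aeval (oel x.T v) (x.H j) - MvPolynomial.aeval (oel x.T x.Vl) (x.H j)) +
    algebraMap ℝ (Bd d) (x.b j) * MvPolynomial.X j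

/-- The chart. -/
noncomputable def V : Fin d → Bd d := x.Pm^[d] (fun _ => 0)

/-- Substitution of the chart. -/
noncomputable def φ : MPt d →+* Bd d := (MvPolynomial.aeval (oel x.T x.V)).toRingHom

/-- The coefficients of the equation in the last coordinate. -/
noncomputable def Rm (m : ℕ) : Bd d := (Polynomial.hasseDeriv m (x.Q.map x.φ)).eval x.NL

/-- The constant coefficient. -/
noncomputable def κ (d : ℕ) : Bd d →+* Polynomial ℝ := MvPolynomial.constantCoeff

/-- The coefficients of the equation relative to the line. -/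
noncomputable def cm (m : ℕ) : Bd d :=
  if m = 0 then x.Rm 0 - MvPolynomial.C (κ d (x.Rm 0)) else x.Rm m

theorem aeval_dep {R : Type*} [CommRing R] [Algebra ℝ R] {K D : ℕ} {M ϑ : ℝ} (h : x.OK K D M ϑ)
    (T : R) (v w : Fin d → R) (j : Fin d) (hvw : ∀ i, i < j → v i = w i) :
    MvPolynomial.aeval (oel T v) (x.H j) = MvPolynomial.aeval (oel T w) (x.H j) := by
  refine MvPolynomial.hom_congr_vars (f₁ := (MvPolynomial.aeval (oel T v)).toRingHom)
    (f₂ := (MvPolynomial.aeval (oel T w)).toRingHom) ?_ ?_ rfl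
  · ext c
    simp
  · intro i hi _
    simp only [AlgHom.toRingHom_eq_coe, RingHom.coe_coe, MvPolynomial.aeval_X]
    rcases i with _ | i
    · rfl
    · exact hvw i (h.dep j _ hi i rfl)

theorem tri_Pm {K D : ℕ} {M ϑ : ℝ} (h : x.OK K D M ϑ) : Tri x.Pm := by
  intro v w j hvw
  unfold Pm
  rw [x.aeval_dep h x.T v w j hvw]

theorem V_eq {K D : ℕ} {M ϑ : ℝ} (h : x.OK K D M ϑ) : x.Pm x.V = x.V := tri_fix (x.tri_Pm h) _

/-! ### Homomorphisms to a ring over the reals -/

section hom

variable {R : Type*} [CommRing R] [Algebra ℝ R]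

theorem map_aev (χ : Bd d →+* R) (hχ : ∀ c : ℝ, χ (algebraMap ℝ (Bd d) c) = algebraMap ℝ R c)
    (w : Option (Fin d) → Bd d) (G : MPt d) :
    χ (MvPolynomial.aeval w G) = MvPolynomial.aeval (fun i => χ (w i)) G := by
  rw [MvPolynomial.aeval_def, MvPolynomial.aeval_def, MvPolynomial.eval₂_eq,
    MvPolynomial.eval₂_eq, map_sum]
  refine Finset.sum_congr rfl fun s _ => ?_
  rw [map_mul, map_prod, hχ]
  congr 1
  exact Finset.prod_congr rfl fun i _ => map_pow _ _ _

theorem oel_map {B B' : Type*} (f : B → B') (t : B) (V : Fin d → B) :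
    (fun i => f (oel t V i)) = oel (f t) (fun j => f (V j)) := by
  funext i
  rcases i with _ | i <;> rfl

/-- The image of the chart. -/
theorem map_V {K D : ℕ} {M ϑ : ℝ} (h : x.OK K D M ϑ) (χ : Bd d →+* R)
    (hχ : ∀ c : ℝ, χ (algebraMap ℝ (Bd d) c) = algebraMap ℝ R c) (j : Fin d) :
    χ (x.V j) = χ (x.Vl j) + (MvPolynomial.aeval (oel (χ x.T) (fun i => χ (x.V i))) (x.H j) -
      MvPolynomial.aeval (oel (χ x.T) (fun i => χ (x.Vl i))) (x.H j)) +
        algebraMap ℝ R (x.b j) * χ (MvPolynomial.X j) := by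
  conv_lhs => rw [← congrFun (x.V_eq h) j]
  unfold Pm
  rw [map_add, map_add, map_sub, map_mul, hχ, map_aev χ hχ, map_aev χ hχ, oel_map, oel_map]

/-- Two solutions of the triangular system. -/
theorem sys_uniq {K D : ℕ} {M ϑ : ℝ} (h : x.OK K D M ϑ) (T : R) (a e : Fin d → R)
    {v w : Fin d → R}
    (hv : ∀ j, v j = a j + (MvPolynomial.aeval (oel T v) (x.H j) -
      MvPolynomial.aeval (oel T a) (x.H j)) + e j)
    (hw : ∀ j, w j = a j + (MvPolynomial.aeval (oel T w) (x.H j) -
      MvPolynomial.aeval (oel T a) (x.H j)) + e j) : v = w := by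
  refine tri_uniq (P := fun v j => a j + (MvPolynomial.aeval (oel T v) (x.H j) -
      MvPolynomial.aeval (oel T a) (x.H j)) + e j) ?_ (funext fun j => (hv j).symm)
    (funext fun j => (hw j).symm)
  intro v w j hvw
  simp only
  rw [x.aeval_dep h T v w j hvw]

end hom

theorem κ_alg (c : ℝ) : κ d (algebraMap ℝ (Bd d) c) = algebraMap ℝ (Polynomial ℝ) c := by
  unfold κ
  rw [MvPolynomial.algebraMap_apply, MvPolynomial.constantCoeff_C]

/-- At the origin the chart is the line. -/
theorem κ_V {K D : ℕ} {M ϑ : ℝ} (h : x.OK K D M ϑ) : (fun j => κ d (x.V j)) =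
    fun j => κ d (x.Vl j) := by
  refine x.sys_uniq h (κ d x.T) (fun j => κ d (x.Vl j)) (fun _ => 0) (fun j => ?_) fun j => ?_
  · have := x.map_V h (κ d) κ_alg j
    rw [this]
    congr 1
    unfold κ
    rw [MvPolynomial.constantCoeff_X, mul_zero]
  · simp

end IeD

end Pool.JM
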