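import Pool.Agent.H10.JM.IeN

/-!
# From an equation to a graph along a line: the approximate root
-/

set_option autoImplicit false

namespace Pool.JM

open Finset

variable {d : ℕ}

namespace IeD

variable (x : IeD d) {K D : ℕ} {M ϑ : ℝ}

/-- The values of the coefficients. -/
theorem hom_Rm (_h : x.OK K D M ϑ) (χ : Bd d →+* ℝ) (hχ : ∀ c : ℝ, χ (algebraMap ℝ (Bd d) c) = c)
    (m : ℕ) : χ (x.Rm m) = x.Qv m (χ x.T) (fun j => χ (x.V j)) (χ x.NL) := by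
  unfold Rm Qv
  rw [hom_hasse, Polynomial.map_map]
  congr 3
  refine MvPolynomial.ringHom_ext (fun c => ?_) fun i => ?_
  · simp only [φ, RingHom.comp_apply, AlgHom.toRingHom_eq_coe, RingHom.coe_coe,
      MvPolynomial.eval_C]
    rw [MvPolynomial.aeval_C]
    exact hχ c
  · simp only [φ, RingHom.comp_apply, AlgHom.toRingHom_eq_coe, RingHom.coe_coe,
      MvPolynomial.eval_X, MvPolynomial.aeval_X]
    rcases i with _ | i <;> rfl

/-- Evaluation of the constant coefficient. -/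
noncomputable def χ₀ (d : ℕ) (τ : ℝ) : Bd d →+* ℝ := (Polynomial.evalRingHom τ).comp (κ d)

theorem χ₀_alg (τ c : ℝ) : χ₀ d τ (algebraMap ℝ (Bd d) c) = c := by
  unfold χ₀
  rw [RingHom.comp_apply, κ_alg]
  simp

theorem χ₀_T (τ : ℝ) : χ₀ d τ x.T = x.t₀ + x.r * τ := by
  unfold χ₀ T κ
  rw [RingHom.comp_apply, MvPolynomial.constantCoeff_C]
  simp

theorem hom_Vl (χ : Bd d →+* ℝ) (hχ : ∀ c : ℝ, χ (algebraMap ℝ (Bd d) c) = c) (j : Fin d) :
    χ (x.Vl j) = x.vl (χ x.T) j := by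
  unfold Vl vl
  rw [map_add, map_mul, hχ, hχ]
  ring

theorem hom_NL (χ : Bd d →+* ℝ) (hχ : ∀ c : ℝ, χ (algebraMap ℝ (Bd d) c) = c) :
    χ x.NL = x.nl (χ x.T) := by
  unfold NL nl
  rw [map_add, map_mul, hχ, hχ]
  ring

theorem χ₀_V (h : x.OK K D M ϑ) (τ : ℝ) (j : Fin d) :
    χ₀ d τ (x.V j) = x.vl (x.t₀ + x.r * τ) j := by
  have h1 : χ₀ d τ (x.V j) = χ₀ d τ (x.Vl j) := by
    unfold χ₀
    rw [RingHom.comp_apply, RingHom.comp_apply]
    have h2 : κ d (x.V j) = κ d (x.Vl j) := congrFun (x.κ_V h) j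
    rw [h2]
  rw [h1, x.hom_Vl _ (χ₀_alg τ), x.χ₀_T]

/-- The constant coefficient of the derivative. -/
theorem κ_Rm_eval (h : x.OK K D M ϑ) (m : ℕ) (τ : ℝ) : (κ d (x.Rm m)).eval τ =
    x.Qv m (x.t₀ + x.r * τ) (x.vl (x.t₀ + x.r * τ)) (x.nl (x.t₀ + x.r * τ)) := by
  have h1 : (κ d (x.Rm m)).eval τ = χ₀ d τ (x.Rm m) := rfl
  rw [h1, x.hom_Rm h _ (χ₀_alg τ), x.hom_NL _ (χ₀_alg τ), x.χ₀_T]
  congr 1
  funext j
  exact x.χ₀_V h τ j

end IeD

/-- **The approximate root.** -/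
theorem ie_h (d D K K₁ k : ℕ) : ∃ (a : ℕ) (C : ℝ), 4 ≤ C ∧ ∀ (M ϑ : ℝ), C ≤ M → 1 ≤ M * ϑ →
    ϑ ^ k * M ≤ 1 → ∀ x : IeD d, x.OK K D M ϑ →
      ∃ h : Bd d, h.totalDegree ≤ K₁ ∧ (∀ s, (MvPolynomial.coeff s h).natDegree ≤ a) ∧
        IeD.κ d h = 0 ∧
        M ^ 3 * nrm l1 K₁ (zero_le_one' ℝ) (Fv x.cm D h) ≤ 1 := by
  classical
  obtain ⟨a, ha⟩ : ∃ a : ℕ, a = D * (IeD.dV K)^[d] 1 + D := ⟨_, rfl⟩
  obtain ⟨e, he⟩ : ∃ e : ℕ, e = IeD.eR d K D := ⟨_, rfl⟩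
  obtain ⟨Cl, hCl, hl⟩ := l1_le_sup a
  obtain ⟨e₄, he₄⟩ : ∃ e₄ : ℕ, e₄ = K₁ * (2 * e + 8) + e + 4 := ⟨_, rfl⟩
  obtain ⟨C, hC⟩ : ∃ C : ℝ, C = 4 + ((D : ℝ) + 1) * 2 ^ D + D * (D + 1) + (8 * Cl) ^ (2 * k) + 1 :=
    ⟨_, rfl⟩
  have hCl0 : 0 < Cl := by linarith
  have hp1 : (0 : ℝ) ≤ ((D : ℝ) + 1) * 2 ^ D := by positivity
  have hp2 : (0 : ℝ) ≤ D * ((D : ℝ) + 1) := by positivity
  have hp3 : (0 : ℝ) ≤ (8 * Cl) ^ (2 * k) := by positivity
  refine ⟨degN a D (2 * k * e₄), C, by linarith, ?_⟩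
  intro M ϑ hM hϑ1 hϑk x hx
  have hM4 : 4 ≤ M := by linarith
  have hM0 : 0 < M := by linarith
  have hM1 : 1 ≤ M := by linarith
  have hMD : ((D : ℝ) + 1) * 2 ^ D ≤ M := by linarith
  have hMD2 : (D : ℝ) * (D + 1) ≤ M := by linarith
  have hMC : (8 * Cl) ^ (2 * k) + 1 ≤ M := by linarith
  have hϑ0 : 0 < ϑ := by
    by_contra hc
    push Not at hc
    nlinarith
  obtain ⟨θ, hθ⟩ : ∃ θ : ℝ, θ = 4 * Cl * ϑ := ⟨_, rfl⟩
  have hθ0 : 0 < θ := by rw [hθ]; positivity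
  -- the size of the contraction constant
  have hθk : θ ^ (2 * k) * M ≤ 1 := by
    have h1 : θ ^ (2 * k) = (4 * Cl) ^ (2 * k) * (ϑ ^ k) ^ 2 := by
      rw [hθ, mul_pow, ← pow_mul, mul_comm k 2]
    have h2 : (4 * Cl) ^ (2 * k) ≤ M := by
      refine le_trans ?_ (le_trans (le_add_of_nonneg_right zero_le_one) hMC)
      exact pow_le_pow_left₀ (by positivity) (by linarith) _
    have h3 : 0 ≤ ϑ ^ k := by positivity
    rw [h1]
    calc (4 * Cl) ^ (2 * k) * (ϑ ^ k) ^ 2 * M ≤ M * (ϑ ^ k) ^ 2 * M := by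
          refine mul_le_mul_of_nonneg_right (mul_le_mul_of_nonneg_right h2 (by positivity)) hM0.le
      _ = (ϑ ^ k * M) ^ 2 := by ring
      _ ≤ 1 := pow_le_one₀ (by positivity) hϑk
  have hθhalf : θ ≤ 1 / 2 := by
    by_contra hc
    push Not at hc
    have h1 : 1 < 8 * Cl * ϑ := by
      rw [hθ] at hc
      linarith
    have h2 : 1 ≤ (8 * Cl * ϑ) ^ k := one_le_pow₀ h1.le
    rw [mul_pow] at h2
    have h3 : (8 * Cl) ^ k ≤ (8 * Cl) ^ (2 * k) :=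
      pow_le_pow_right₀ (by linarith) (by omega)
    have h4 : (8 * Cl) ^ k * (ϑ ^ k * M) ≤ (8 * Cl) ^ k * 1 :=
      mul_le_mul_of_nonneg_left hϑk (by positivity)
    have h5 : M ≤ (8 * Cl) ^ k := by
      calc M = 1 * M := (one_mul M).symm
        _ ≤ (8 * Cl) ^ k * ϑ ^ k * M := mul_le_mul_of_nonneg_right h2 hM0.le
        _ = (8 * Cl) ^ k * (ϑ ^ k * M) := by ring
        _ ≤ _ := by linarith
    linarith
  -- the radii
  obtain ⟨δ, hδ⟩ : ∃ δ : ℝ, δ = 1 / M ^ (e + 4) := ⟨_, rfl⟩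
  obtain ⟨ρ, hρ⟩ : ∃ ρ : ℝ, ρ = 1 / M ^ (2 * e + 8) := ⟨_, rfl⟩
  have hδ0 : 0 < δ := by rw [hδ]; positivity
  have hρ0 : 0 < ρ := by rw [hρ]; positivity
  have hρ1 : ρ ≤ 1 := by
    rw [hρ, div_le_one (by positivity)]
    exact one_le_pow₀ hM1
  have hδ1 : δ ≤ 1 := by
    rw [hδ, div_le_one (by positivity)]
    exact one_le_pow₀ hM1
  have hR : ∀ m, N1 d (x.Rm m) ≤ M ^ e := fun m => by
    rw [he]
    exact x.N_Rm hx hM4 hMD m
  obtain ⟨N, hN⟩ : ∃ N : RingSeminorm (Bd d), N = nrm l1 ⊤ hρ0.le := ⟨_, rfl⟩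
  have hN1 : ∀ f, N f ≤ N1 d f := fun f => by
    rw [hN]
    exact nrm_mono l1 hρ0.le hρ1 f
  have hNR : ∀ m, N (x.Rm m) ≤ M ^ e := fun m => (hN1 _).trans (hR m)
  have hsubκ : ∀ m, N (x.Rm m - MvPolynomial.C (IeD.κ d (x.Rm m))) ≤ ρ * (2 * M ^ e) := by
    intro m
    rw [hN]
    refine (nrm_sub_κ hρ0.le hρ1 _).trans (mul_le_mul_of_nonneg_left ?_ hρ0.le)
    linarith [hR m]
  have hcm : ∀ m, N (x.cm m) ≤ 2 * M ^ e := by
    intro m
    unfold IeD.cm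
    have h0 : 0 ≤ M ^ e := by positivity
    split_ifs
    · refine (hsubκ 0).trans ?_
      nlinarith
    · linarith [hNR m]
  obtain ⟨q₀, hq₀⟩ : ∃ q₀ : ℝ, q₀ = x.q x.t₀ := ⟨_, rfl⟩
  have hq0 : 1 ≤ M * |q₀| := by rw [hq₀]; exact hx.q0
  have hq0' : 0 < |q₀| := by
    by_contra hc
    push Not at hc
    nlinarith
  have hq0'' : q₀ ≠ 0 := abs_pos.1 hq0'
  have hinv : |q₀⁻¹| ≤ M := by
    rw [abs_inv, inv_le_iff_one_le_mul₀ hq0']
    exact hq0
  have hrpos := IeD.OK.r_pos x hx hM0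
  have hNψ : N (algebraMap ℝ (Bd d) q₀⁻¹) = |q₀⁻¹| := by
    rw [hN]
    exact nrm_alg hρ0.le _
  -- the first condition
  have hone : 1 / M ≤ ϑ := by
    rw [div_le_iff₀ hM0, mul_comm]
    exact hϑ1
  have c1 : N (1 - algebraMap ℝ (Bd d) q₀⁻¹ * x.cm 1) ≤ θ / 2 := by
    have e1 : x.cm 1 = x.Rm 1 := by
      unfold IeD.cm
      rw [if_neg one_ne_zero]
    have e2 : 1 - algebraMap ℝ (Bd d) q₀⁻¹ * x.cm 1 =
        algebraMap ℝ (Bd d) q₀⁻¹ * (MvPolynomial.C (Polynomial.C q₀ - IeD.κ d (x.Rm 1))) -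
          algebraMap ℝ (Bd d) q₀⁻¹ * (x.Rm 1 - MvPolynomial.C (IeD.κ d (x.Rm 1))) := by
      have e3 : (1 : Bd d) = algebraMap ℝ (Bd d) q₀⁻¹ * MvPolynomial.C (Polynomial.C q₀) := by
        rw [MvPolynomial.algebraMap_apply, ← MvPolynomial.C_mul]
        have : algebraMap ℝ (Polynomial ℝ) q₀⁻¹ * Polynomial.C q₀ = 1 := by
          rw [Polynomial.algebraMap_eq, ← Polynomial.C_mul, inv_mul_cancel₀ hq0'',
            Polynomial.C_1]
        rw [this, MvPolynomial.C_1]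
      rw [e1]
      conv_lhs => rw [e3]
      rw [MvPolynomial.C_sub]
      ring
    rw [e2]
    refine (map_sub_le_add N _ _).trans ?_
    have a1 : N (algebraMap ℝ (Bd d) q₀⁻¹ *
        (MvPolynomial.C (Polynomial.C q₀ - IeD.κ d (x.Rm 1)))) ≤ Cl * ϑ := by
      refine (map_mul_le_mul N _ _).trans ?_
      rw [hNψ, hN, nrm_C]
      have b1 : l1 (Polynomial.C q₀ - IeD.κ d (x.Rm 1)) ≤ Cl * (ϑ * |q₀|) := by
        refine hl _ _ ?_ fun τ hτ0 hτ1 => ?_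
        · refine (Polynomial.natDegree_sub_le _ _).trans (max_le ?_ ?_)
          · rw [Polynomial.natDegree_C]
            exact Nat.zero_le _
          · rw [ha]
            exact (x.fil_Rm hx 1).2 0
        · rw [Polynomial.eval_sub, Polynomial.eval_C, x.κ_Rm_eval hx, abs_sub_comm, hq₀]
          refine hx.qv _ ?_
          rw [add_sub_cancel_left, abs_mul, abs_of_pos hrpos, abs_of_nonneg hτ0]
          nlinarith
      calc |q₀⁻¹| * l1 (Polynomial.C q₀ - IeD.κ d (x.Rm 1))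
          ≤ |q₀⁻¹| * (Cl * (ϑ * |q₀|)) := mul_le_mul_of_nonneg_left b1 (abs_nonneg _)
        _ = Cl * ϑ * (|q₀⁻¹| * |q₀|) := by ring
        _ = Cl * ϑ := by rw [abs_inv, inv_mul_cancel₀ hq0'.ne', mul_one]
    have a2 : N (algebraMap ℝ (Bd d) q₀⁻¹ * (x.Rm 1 - MvPolynomial.C (IeD.κ d (x.Rm 1)))) ≤
        ϑ := by
      refine (map_mul_le_mul N _ _).trans ?_
      rw [hNψ]
      calc |q₀⁻¹| * N (x.Rm 1 - MvPolynomial.C (IeD.κ d (x.Rm 1)))
          ≤ M * (ρ * (2 * M ^ e)) := mul_le_mul hinv (hsubκ 1) (apply_nonneg _ _) hM0.le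
        _ ≤ 1 / M := by
            rw [hρ, le_div_iff₀ hM0]
            have : M * (1 / M ^ (2 * e + 8) * (2 * M ^ e)) * M = 2 * M ^ (e + 2) / M ^ (2 * e + 8) := by
              ring
            rw [this, div_le_one (by positivity)]
            calc 2 * M ^ (e + 2) ≤ M * M ^ (e + 2) :=
                  mul_le_mul_of_nonneg_right (by linarith) (by positivity)
              _ = M ^ (e + 3) := by ring
              _ ≤ _ := pow_le_pow_right₀ hM1 (by omega)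
        _ ≤ ϑ := hone
    have a3 : ϑ ≤ Cl * ϑ := by nlinarith
    rw [hθ]
    linarith
  have c2 : N (algebraMap ℝ (Bd d) q₀⁻¹) * ∑ m ∈ range D, N (x.cm (m + 2)) *
      ((m + 2) * δ ^ (m + 1)) ≤ θ / 2 := by
    have a1 : ∀ m ∈ range D, N (x.cm (m + 2)) * ((m + 2) * δ ^ (m + 1)) ≤
        2 * M ^ e * ((D + 1) * δ) := by
      intro m hm
      rw [mem_range] at hm
      refine mul_le_mul (hcm _) ?_ (by positivity) (by positivity)
      have b1 : (m : ℝ) + 2 ≤ D + 1 := by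
        have : m + 2 ≤ D + 1 := by omega
        exact_mod_cast this
      have b2 : δ ^ (m + 1) ≤ δ := by
        calc δ ^ (m + 1) ≤ δ ^ 1 := pow_le_pow_of_le_one hδ0.le hδ1 (by omega)
          _ = δ := pow_one δ
      exact mul_le_mul b1 b2 (by positivity) (by positivity)
    have a2 := Finset.sum_le_sum a1
    rw [Finset.sum_const, card_range, nsmul_eq_mul] at a2
    rw [hNψ]
    calc |q₀⁻¹| * ∑ m ∈ range D, N (x.cm (m + 2)) * ((m + 2) * δ ^ (m + 1))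
        ≤ M * (D * (2 * M ^ e * ((D + 1) * δ))) :=
          mul_le_mul hinv a2 (Finset.sum_nonneg fun m _ => mul_nonneg (apply_nonneg _ _)
            (by positivity)) hM0.le
      _ = (D * (D + 1)) * (2 * M ^ (e + 1) * δ) := by ring
      _ ≤ M * (2 * M ^ (e + 1) * δ) := mul_le_mul_of_nonneg_right hMD2 (by positivity)
      _ = 2 * (M ^ (e + 2) / M ^ (e + 4)) := by
          rw [hδ]
          ring
      _ ≤ 2 * (1 / M) := by
          refine mul_le_mul_of_nonneg_left ?_ (by norm_num)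
          rw [div_le_div_iff₀ (by positivity) hM0, one_mul, ← pow_succ]
          exact pow_le_pow_right₀ hM1 (by omega)
      _ ≤ 2 * ϑ := mul_le_mul_of_nonneg_left hone (by norm_num)
      _ ≤ θ / 2 := by
          rw [hθ]
          nlinarith
  have c3 : N (algebraMap ℝ (Bd d) q₀⁻¹ * x.cm 0) ≤ (1 - θ) * δ := by
    have e1 : x.cm 0 = x.Rm 0 - MvPolynomial.C (IeD.κ d (x.Rm 0)) := by
      unfold IeD.cm
      rw [if_pos rfl]
    refine (map_mul_le_mul N _ _).trans ?_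
    rw [hNψ, e1]
    calc |q₀⁻¹| * N (x.Rm 0 - MvPolynomial.C (IeD.κ d (x.Rm 0)))
        ≤ M * (ρ * (2 * M ^ e)) := mul_le_mul hinv (hsubκ 0) (apply_nonneg _ _) hM0.le
      _ ≤ 1 / 2 * δ := by
          rw [hρ, hδ]
          have : M * (1 / M ^ (2 * e + 8) * (2 * M ^ e)) = 2 * M ^ (e + 1) / M ^ (2 * e + 8) := by
            ring
          rw [this, mul_one_div, div_div, div_le_div_iff₀ (by positivity) (by positivity)]
          calc 2 * M ^ (e + 1) * (2 * M ^ (e + 4)) = 4 * M ^ (2 * e + 5) := by ring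
            _ ≤ M * M ^ (2 * e + 5) := mul_le_mul_of_nonneg_right hM4 (by positivity)
            _ = M ^ (2 * e + 6) := by ring
            _ ≤ 1 * M ^ (2 * e + 8) := by
                rw [one_mul]
                exact pow_le_pow_right₀ hM1 (by omega)
      _ ≤ (1 - θ) * δ := mul_le_mul_of_nonneg_right (by linarith) hδ0.le
  have hker : x.cm 0 ∈ RingHom.ker (IeD.κ d) := by
    rw [RingHom.mem_ker]
    unfold IeD.cm
    rw [if_pos rfl, map_sub, sub_eq_zero]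
    unfold IeD.κ
    rw [MvPolynomial.constantCoeff_C]
  obtain ⟨g, hg1, -, hg3, hg4⟩ := newton N (filT (Fin d)) (RingHom.ker (IeD.κ d)) x.cm
    (algebraMap ℝ (Bd d) q₀⁻¹) D a hker hθ0.le (by linarith) hδ0.le
    (fun m => by rw [ha]; exact x.fil_cm hx m)
    ((filT (Fin d)).mono (Nat.zero_le _) (filT_alg _)) c1 c2 c3 (2 * k * e₄)
  refine ⟨trk K₁ g, trk_degree K₁ g, ?_, ?_, ?_⟩
  · intro s
    by_cases hs : s.degree ≤ K₁
    · rw [coeff_trk K₁ g s hs]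
      exact hg3.2 s
    · rw [coeff_trk_zero K₁ g s hs, Polynomial.natDegree_zero]
      exact Nat.zero_le _
  · have h1 : IeD.κ d g = 0 := hg1
    have h2 : IeD.κ d (trk K₁ g) = IeD.κ d g := by
      have h3 := coeff_trk K₁ g 0 (by rw [show ((0 : Fin d →₀ ℕ)).degree = 0 from map_zero _]; exact Nat.zero_le _)
      exact h3
    rw [h2, h1]
  · obtain ⟨N', hN'⟩ : ∃ N' : RingSeminorm (Bd d), N' = nrm l1 K₁ (zero_le_one' ℝ) := ⟨_, rfl⟩
    have h1 : N' (g - trk K₁ g) = 0 := by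
      rw [hN']
      exact nrm_sub_trk l1 K₁ _ g
    obtain ⟨z, hz⟩ : ∃ z, Fv x.cm D g - Fv x.cm D (trk K₁ g) = (g - trk K₁ g) * z := by
      unfold Fv
      rw [← Finset.sum_sub_distrib]
      have : (g - trk K₁ g) ∣ ∑ m ∈ range (D + 2), (x.cm m * g ^ m - x.cm m * trk K₁ g ^ m) := by
        refine Finset.dvd_sum fun m _ => ?_
        rw [← mul_sub]
        exact Dvd.dvd.mul_left (sub_dvd_pow_sub_pow _ _ _) _
      exact this
    have h2 : N' (Fv x.cm D g - Fv x.cm D (trk K₁ g)) ≤ 0 := by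
      rw [hz]
      refine (map_mul_le_mul N' _ _).trans ?_
      rw [h1, zero_mul]
    have h3 : N' (Fv x.cm D (trk K₁ g)) ≤ N' (Fv x.cm D g) := by
      have e1 : Fv x.cm D (trk K₁ g) = Fv x.cm D g - (Fv x.cm D g - Fv x.cm D (trk K₁ g)) := by
        ring
      rw [e1]
      refine (map_sub_le_add N' _ _).trans ?_
      linarith
    have h4 : ρ ^ K₁ * N' (Fv x.cm D g) ≤ N (Fv x.cm D g) := by
      rw [hN', hN]
      exact (nrm_radius l1 K₁ hρ0 hρ1 _).trans (nrm_top l1 hρ0.le _)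
    have h5 : N (x.cm 1) ≤ 2 * M ^ e := hcm 1
    have h6 : θ ^ (2 * k * e₄) * M ^ e₄ ≤ 1 := by
      rw [pow_mul, ← mul_pow]
      exact pow_le_one₀ (by positivity) hθk
    have h7 : ρ ^ K₁ * N' (Fv x.cm D g) ≤ 4 * M ^ e * (θ ^ (2 * k * e₄)) := by
      refine h4.trans (hg4.trans ?_)
      have : θ ^ (2 * k * e₄) * δ ≤ θ ^ (2 * k * e₄) * 1 :=
        mul_le_mul_of_nonneg_left hδ1 (by positivity)
      calc 2 * N (x.cm 1) * (θ ^ (2 * k * e₄) * δ)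
          ≤ 2 * (2 * M ^ e) * (θ ^ (2 * k * e₄) * 1) :=
            mul_le_mul (by linarith) this (by positivity) (by positivity)
        _ = _ := by ring
    have h8 : ρ ^ K₁ = 1 / M ^ (K₁ * (2 * e + 8)) := by
      rw [hρ, one_div_pow, ← pow_mul, mul_comm K₁]
    have h9 : N' (Fv x.cm D g) ≤ 4 * M ^ e * (θ ^ (2 * k * e₄)) * M ^ (K₁ * (2 * e + 8)) := by
      rw [h8, one_div_mul_eq_div, div_le_iff₀ (by positivity)] at h7
      exact h7
    rw [← hN']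
    calc M ^ 3 * N' (Fv x.cm D (trk K₁ g)) ≤ M ^ 3 * N' (Fv x.cm D g) :=
          mul_le_mul_of_nonneg_left h3 (by positivity)
      _ ≤ M ^ 3 * (4 * M ^ e * (θ ^ (2 * k * e₄)) * M ^ (K₁ * (2 * e + 8))) :=
          mul_le_mul_of_nonneg_left h9 (by positivity)
      _ = 4 * (θ ^ (2 * k * e₄) * M ^ (K₁ * (2 * e + 8) + e + 3)) := by ring
      _ ≤ M * (θ ^ (2 * k * e₄) * M ^ (K₁ * (2 * e + 8) + e + 3)) :=
          mul_le_mul_of_nonneg_right hM4 (by positivity)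
      _ = θ ^ (2 * k * e₄) * M ^ e₄ := by
          rw [he₄]
          ring
      _ ≤ 1 := h6

end Pool.JM
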