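import Pool.Agent.H10.JM.IeD

/-!
# From an equation to a graph along a line: norms and degrees
-/

set_option autoImplicit false

namespace Pool.JM

open Finset

variable {d : ℕ}

/-- The norm at the radius one. -/
noncomputable def N1 (d : ℕ) : RingSeminorm (Bd d) := nrm l1 ⊤ (zero_le_one' ℝ)

theorem nrm_alg {K : ℕ∞} {ρ : ℝ} (hρ : 0 ≤ ρ) (c : ℝ) :
    nrm l1 K hρ (algebraMap ℝ (Bd d) c) = |c| := by
  rw [MvPolynomial.algebraMap_apply, nrm_C]
  exact l1_C c

theorem nrm_nat {K : ℕ∞} {ρ : ℝ} (hρ : 0 ≤ ρ) (n : ℕ) : nrm l1 K hρ ((n : ℕ) : Bd d) ≤ n := by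
  have h1 : ((n : ℕ) : Bd d) = algebraMap ℝ (Bd d) n := by rw [map_natCast]
  rw [h1, nrm_alg hρ, Nat.abs_cast]

theorem filT_alg (c : ℝ) : (filT (Fin d)).P 0 (algebraMap ℝ (Bd d) c) := by
  classical
  rw [MvPolynomial.algebraMap_apply]
  refine ⟨(MvPolynomial.totalDegree_C _).le, fun s => ?_⟩
  rw [MvPolynomial.coeff_C]
  split_ifs
  · exact (Polynomial.natDegree_C c).le
  · simp

theorem filT_nat (n : ℕ) : (filT (Fin d)).P 0 ((n : ℕ) : Bd d) := by
  have h1 : ((n : ℕ) : Bd d) = algebraMap ℝ (Bd d) n := by rw [map_natCast]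
  rw [h1]
  exact filT_alg _

theorem filT_X (j : Fin d) : (filT (Fin d)).P 1 (MvPolynomial.X j) := by
  classical
  refine ⟨(MvPolynomial.totalDegree_X j).le, fun s => ?_⟩
  rw [MvPolynomial.coeff_X]
  split_ifs
  · simp
  · simp

/-- Coefficients of the constant term. -/
theorem filT_κ {n : ℕ} {f : Bd d} (h : (filT (Fin d)).P n f) :
    (filT (Fin d)).P n (MvPolynomial.C (IeD.κ d f)) := by
  classical
  refine ⟨(MvPolynomial.totalDegree_C _).le.trans (Nat.zero_le _), fun s => ?_⟩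
  rw [MvPolynomial.coeff_C]
  split_ifs
  · exact h.2 0
  · simp

theorem nrm_κ {K : ℕ∞} {ρ : ℝ} (hρ : 0 ≤ ρ) (f : Bd d) :
    nrm l1 K hρ (MvPolynomial.C (IeD.κ d f) : Bd d) ≤ nrm l1 K hρ f := by
  rw [nrm_C]
  have h1 := coeff_le l1 (K := K) hρ f (s := 0) (by simp)
  rw [show ((0 : Fin d →₀ ℕ)).degree = 0 from map_zero _, pow_zero, mul_one] at h1
  exact h1

/-- The part without constant term. -/
theorem nrm_sub_κ {ρ : ℝ} (hρ : 0 ≤ ρ) (hρ1 : ρ ≤ 1) (f : Bd d) :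
    nrm l1 ⊤ hρ (f - MvPolynomial.C (IeD.κ d f)) ≤ ρ * (2 * N1 d f) := by
  refine (nrm_small l1 hρ hρ1 _ ?_).trans (mul_le_mul_of_nonneg_left ?_ hρ)
  · rw [MvPolynomial.coeff_sub, MvPolynomial.coeff_zero_C]
    exact sub_self _
  · have h1 := map_sub_le_add (N1 d) f (MvPolynomial.C (IeD.κ d f))
    have h2 : N1 d (MvPolynomial.C (IeD.κ d f)) ≤ N1 d f := nrm_κ _ f
    have h3 : nrm l1 ⊤ zero_le_one (f - MvPolynomial.C (IeD.κ d f)) =
      N1 d (f - MvPolynomial.C (IeD.κ d f)) := rfl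
    rw [h3]
    linarith

namespace IeD

variable (x : IeD d) {K D : ℕ} {M ϑ : ℝ}

theorem OK.r_pos (h : x.OK K D M ϑ) (hM : 0 < M) : 0 < x.r := by
  have := h.r0
  by_contra hc
  push Not at hc
  nlinarith

theorem OK.b_pos (h : x.OK K D M ϑ) (hM : 0 < M) (j : Fin d) : 0 < x.b j := by
  have := h.b0 j
  by_contra hc
  push Not at hc
  nlinarith

theorem N_T (h : x.OK K D M ϑ) (hM : 2 ≤ M) : N1 d x.T ≤ M ^ 2 := by
  have hr := OK.r_pos x h (by linarith)
  have h1 : N1 d x.T ≤ |x.t₀| + x.r := by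
    unfold N1 T
    rw [nrm_C]
    refine (map_add_le_add l1 _ _).trans (add_le_add (l1_C _).le ?_)
    refine (map_mul_le_mul l1 _ _).trans ?_
    rw [l1_C, l1_X, mul_one, abs_of_pos hr]
  have h2 := h.t1
  have h3 := h.r1
  nlinarith

theorem N_Vl (h : x.OK K D M ϑ) (hM : 2 ≤ M) (j : Fin d) : N1 d (x.Vl j) ≤ M ^ 4 := by
  have h1 : N1 d (x.Vl j) ≤ |x.A j| + |x.Bv j| * N1 d x.T := by
    unfold Vl
    refine (map_add_le_add (N1 d) _ _).trans (add_le_add (nrm_alg _ _).le ?_)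
    refine (map_mul_le_mul (N1 d) _ _).trans ?_
    exact mul_le_mul_of_nonneg_right (nrm_alg _ _).le (apply_nonneg _ _)
  have h2 : |x.Bv j| * N1 d x.T ≤ M * M ^ 2 :=
    mul_le_mul (h.B1 j) (x.N_T h hM) (apply_nonneg _ _) (by linarith)
  have h3 := h.A1 j
  have h4 : M ≤ M ^ 3 := by
    nlinarith [pow_pos (by linarith : (0 : ℝ) < M) 2, pow_pos (by linarith : (0 : ℝ) < M) 3]
  have h5 : M ^ 4 = M * M ^ 3 := by ring
  have h6 : M * M ^ 2 = M ^ 3 := by ring
  have h7 : (0 : ℝ) < M ^ 3 := by positivity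
  rw [h6] at h2
  rw [h5]
  nlinarith

theorem N_NL (h : x.OK K D M ϑ) (hM : 2 ≤ M) : N1 d x.NL ≤ M ^ 4 := by
  have h1 : N1 d x.NL ≤ |x.AN| + |x.BN| * N1 d x.T := by
    unfold NL
    refine (map_add_le_add (N1 d) _ _).trans (add_le_add (nrm_alg _ _).le ?_)
    refine (map_mul_le_mul (N1 d) _ _).trans ?_
    exact mul_le_mul_of_nonneg_right (nrm_alg _ _).le (apply_nonneg _ _)
  have h2 : |x.BN| * N1 d x.T ≤ M * M ^ 2 :=
    mul_le_mul h.BN1 (x.N_T h hM) (apply_nonneg _ _) (by linarith)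
  have h3 := h.AN1
  have h4 : M ≤ M ^ 3 := by
    nlinarith [pow_pos (by linarith : (0 : ℝ) < M) 2, pow_pos (by linarith : (0 : ℝ) < M) 3]
  have h5 : M ^ 4 = M * M ^ 3 := by ring
  have h6 : M * M ^ 2 = M ^ 3 := by ring
  have h7 : (0 : ℝ) < M ^ 3 := by positivity
  rw [h6] at h2
  rw [h5]
  nlinarith

/-- The exponents of the chart. -/
def eV (K : ℕ) : ℕ → ℕ := fun e => K * e + 6

/-- The norm of the chart. -/
theorem N_V (h : x.OK K D M ϑ) (hM : 4 ≤ M) (j : Fin d) :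
    N1 d (x.V j) ≤ M ^ ((eV K)^[d] 4) := by
  have hM1 : 1 ≤ M := by linarith
  have h1 := iter_prop (P := x.Pm) (Q := fun e v => 4 ≤ e ∧ N1 d v ≤ M ^ e) (F := eV K)
    (x := fun _ => 0) (a := 4) (fun j => ⟨le_rfl, by rw [map_zero]; positivity⟩) ?_ d j
  · exact h1.2
  intro e v hv j
  refine ⟨by unfold eV; omega, ?_⟩
  rcases Nat.eq_zero_or_pos d with hd | hd
  · exact absurd j.2 (by omega)
  have he : 4 ≤ e := (hv j).1
  have hMe : M ^ 4 ≤ M ^ e := pow_le_pow_right₀ hM1 he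
  have hM1e : 1 ≤ M ^ e := one_le_pow₀ hM1
  have h2 : ∀ w : Fin d → Bd d, (∀ j, N1 d (w j) ≤ M ^ e) →
      N1 d (MvPolynomial.aeval (oel x.T w) (x.H j)) ≤ M * M ^ (K * e) := by
    intro w hw
    refine (semi_aeval (N1 d) (fun c => (nrm_alg _ c).le) _ hM1e ?_ _ (h.deg j)).trans ?_
    · intro i
      rcases i with _ | i
      · refine (x.N_T h (by linarith)).trans (le_trans ?_ hMe)
        exact pow_le_pow_right₀ hM1 (by norm_num)
      · exact hw i
    · rw [← pow_mul, mul_comm e K]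
      exact mul_le_mul_of_nonneg_right (h.cs j) (by positivity)
  unfold Pm
  refine (map_add_le_add (N1 d) _ _).trans ?_
  have a1 := map_add_le_add (N1 d) (x.Vl j) (MvPolynomial.aeval (oel x.T v) (x.H j) -
    MvPolynomial.aeval (oel x.T x.Vl) (x.H j))
  have a2 := map_sub_le_add (N1 d) (MvPolynomial.aeval (oel x.T v) (x.H j))
    (MvPolynomial.aeval (oel x.T x.Vl) (x.H j))
  have a3 := h2 v fun j => (hv j).2
  have a4 := h2 x.Vl fun j => (x.N_Vl h (by linarith) j).trans hMe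
  have a5 := x.N_Vl h (by linarith) j
  have a6 : N1 d (algebraMap ℝ (Bd d) (x.b j) * MvPolynomial.X j) ≤ M * 1 := by
    refine (map_mul_le_mul (N1 d) _ _).trans (mul_le_mul ?_ ?_ (apply_nonneg _ _) (by linarith))
    · refine (nrm_alg _ _).le.trans ?_
      rw [abs_of_pos (OK.b_pos x h (by linarith) j)]
      exact h.b1 j
    · refine (nrm_X l1 _ _).trans ?_
      rw [mul_one]
      have := l1_C 1
      rw [Polynomial.C_1, abs_one] at this
      exact this.le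
  have a7 : M * M ^ (K * e) = M ^ (K * e + 1) := by ring
  have a8 : M ^ 4 ≤ M ^ (K * e + 5) := pow_le_pow_right₀ hM1 (by omega)
  have a9 : M ^ (K * e + 1) ≤ M ^ (K * e + 5) := pow_le_pow_right₀ hM1 (by omega)
  have a10 : M * 1 ≤ M ^ (K * e + 5) := by
    rw [mul_one]
    calc M = M ^ 1 := (pow_one M).symm
      _ ≤ _ := pow_le_pow_right₀ hM1 (by omega)
  have a11 : M ^ (eV K e) = M * M ^ (K * e + 5) := by
    unfold eV
    ring
  rw [a7] at a3 a4
  rw [a11]
  have a12 : 0 < M ^ (K * e + 5) := by positivity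
  nlinarith

/-- The degree of the chart. -/
theorem fil_T : (filT (Fin d)).P 1 x.T := by
  classical
  unfold T
  refine ⟨(MvPolynomial.totalDegree_C _).le.trans (Nat.zero_le _), fun s => ?_⟩
  rw [MvPolynomial.coeff_C]
  split_ifs
  · refine (Polynomial.natDegree_add_le _ _).trans (max_le ?_ ?_)
    · simp
    · exact (Polynomial.natDegree_C_mul_le _ _).trans Polynomial.natDegree_X_le
  · simp

theorem fil_Vl (j : Fin d) : (filT (Fin d)).P 1 (x.Vl j) := by
  unfold Vl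
  refine (filT (Fin d)).add ((filT (Fin d)).mono (Nat.zero_le _) (filT_alg _)) ?_
  have := (filT (Fin d)).mul (filT_alg (d := d) (x.Bv j)) x.fil_T
  rwa [zero_add] at this

theorem fil_NL : (filT (Fin d)).P 1 x.NL := by
  unfold NL
  refine (filT (Fin d)).add ((filT (Fin d)).mono (Nat.zero_le _) (filT_alg _)) ?_
  have := (filT (Fin d)).mul (filT_alg (d := d) x.BN) x.fil_T
  rwa [zero_add] at this

/-- The degrees of the chart. -/
def dV (K : ℕ) : ℕ → ℕ := fun e => K * e + 1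

theorem dV_pos (K n : ℕ) : 1 ≤ (dV K)^[n] 1 := by
  rcases n with _ | n
  · exact le_rfl
  · rw [Function.iterate_succ_apply']
    unfold dV
    omega

theorem fil_V (h : x.OK K D M ϑ) (j : Fin d) : (filT (Fin d)).P ((dV K)^[d] 1) (x.V j) := by
  have h1 := iter_prop (P := x.Pm) (Q := fun e v => 1 ≤ e ∧ (filT (Fin d)).P e v) (F := dV K)
    (x := fun _ => 0) (a := 1) (fun j => ⟨le_rfl, (filT (Fin d)).zero _⟩) ?_ d j
  · exact h1.2
  intro e v hv j
  refine ⟨by unfold dV; omega, ?_⟩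
  have he : 1 ≤ e := (hv j).1
  have h2 : ∀ w : Fin d → Bd d, (∀ j, (filT (Fin d)).P e (w j)) →
      (filT (Fin d)).P (K * e) (MvPolynomial.aeval (oel x.T w) (x.H j)) := by
    intro w hw
    refine (filT (Fin d)).aeval filT_alg _ ?_ _ (h.deg j)
    intro i
    rcases i with _ | i
    · exact (filT (Fin d)).mono he x.fil_T
    · exact hw i
  unfold Pm dV
  refine (filT (Fin d)).add ((filT (Fin d)).add ?_ ?_) ?_
  · exact (filT (Fin d)).mono (by omega) (x.fil_Vl j)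
  · refine (filT (Fin d)).mono (Nat.le_add_right _ _) ((filT (Fin d)).sub
      (h2 v fun j => (hv j).2) (h2 x.Vl fun j => (filT (Fin d)).mono he (x.fil_Vl j)))
  · have := (filT (Fin d)).mul (filT_alg (d := d) (x.b j)) (filT_X j)
    rw [zero_add] at this
    exact (filT (Fin d)).mono (Nat.le_add_left _ _) this

theorem N_φ (h : x.OK K D M ϑ) (hM : 4 ≤ M) (G : MPt d) {K' : ℕ} (hG : G.totalDegree ≤ K') :
    N1 d (x.φ G) ≤ Pool.KAL.coefSum G * M ^ (K' * (eV K)^[d] 4) := by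
  have hM1 : 1 ≤ M := by linarith
  have he : 4 ≤ (eV K)^[d] 4 := by
    rcases d with _ | n
    · exact le_rfl
    · rw [Function.iterate_succ_apply']
      unfold eV
      omega
  refine (semi_aeval (N1 d) (fun c => (nrm_alg _ c).le) _ (W := M ^ ((eV K)^[d] 4))
    (one_le_pow₀ hM1) ?_ _ hG).trans (le_of_eq ?_)
  · intro i
    rcases i with _ | i
    · exact (x.N_T h (by linarith)).trans (pow_le_pow_right₀ hM1 (by omega))
    · exact x.N_V h hM i
  · rw [← pow_mul, mul_comm K']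

theorem fil_φ (h : x.OK K D M ϑ) (G : MPt d) {K' : ℕ} (hG : G.totalDegree ≤ K') :
    (filT (Fin d)).P (K' * (dV K)^[d] 1) (x.φ G) := by
  refine (filT (Fin d)).aeval filT_alg _ ?_ _ hG
  intro i
  rcases i with _ | i
  · exact (filT (Fin d)).mono (dV_pos K d) x.fil_T
  · exact x.fil_V h i

/-- The exponent of the coefficients. -/
def eR (d K D : ℕ) : ℕ := 2 + 2 * (D * (eV K)^[d] 4)

theorem N_Rm (h : x.OK K D M ϑ) (hM : 4 ≤ M) (hM2 : ((D : ℝ) + 1) * 2 ^ D ≤ M) (m : ℕ) :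
    N1 d (x.Rm m) ≤ M ^ eR d K D := by
  have hM1 : 1 ≤ M := by linarith
  have he : 4 ≤ (eV K)^[d] 4 := by
    rcases d with _ | n
    · exact le_rfl
    · rw [Function.iterate_succ_apply']
      unfold eV
      omega
  obtain ⟨E, hE⟩ : ∃ E : ℕ, E = (eV K)^[d] 4 := ⟨_, rfl⟩
  have h1 : ∀ n, N1 d ((x.Q.map x.φ).coeff n) ≤ M * M ^ (D * E) := by
    intro n
    rw [Polynomial.coeff_map, hE]
    refine (x.N_φ h hM _ (h.Qd n)).trans (mul_le_mul_of_nonneg_right (h.Qc n) (by positivity))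
  have h2 : N1 d x.NL ≤ M ^ E := by
    rw [hE]
    exact (x.N_NL h (by linarith)).trans (pow_le_pow_right₀ hM1 he)
  have h3 := hasse_le (N1 d) (fun n => nrm_nat _ n) (x.Q.map x.φ)
    ((Polynomial.natDegree_map_le).trans h.Qn) m x.NL h1 (one_le_pow₀ hM1) h2
  unfold Rm
  refine h3.trans ?_
  have h4 : ((D : ℝ) + 1) * (2 ^ D * (M * M ^ (D * E)) * (M ^ E) ^ D) =
      ((D : ℝ) + 1) * 2 ^ D * (M ^ (1 + 2 * (D * E))) := by
    rw [← pow_mul, mul_comm E D]
    ring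
  rw [h4]
  have h5 : M ^ eR d K D = M * M ^ (1 + 2 * (D * E)) := by
    unfold eR
    rw [← hE]
    ring
  rw [h5]
  exact mul_le_mul_of_nonneg_right hM2 (by positivity)

theorem fil_Rm (h : x.OK K D M ϑ) (m : ℕ) :
    (filT (Fin d)).P (D * (dV K)^[d] 1 + D) (x.Rm m) := by
  have h1 := hasse_fil (filT (Fin d)) (fun n => filT_nat n) (x.Q.map x.φ)
    ((Polynomial.natDegree_map_le).trans h.Qn) m x.NL (a := D * (dV K)^[d] 1) (b := 1) ?_ x.fil_NL
  · rwa [mul_one] at h1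
  · intro n
    rw [Polynomial.coeff_map]
    exact x.fil_φ h _ (h.Qd n)

theorem fil_cm (h : x.OK K D M ϑ) (m : ℕ) :
    (filT (Fin d)).P (D * (dV K)^[d] 1 + D) (x.cm m) := by
  unfold cm
  split_ifs
  · exact (filT (Fin d)).sub (x.fil_Rm h 0) (filT_κ (x.fil_Rm h 0))
  · exact x.fil_Rm h m

end IeD

end Pool.JM
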