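import Pool.Agent.H10.JM.Nwt
import Pool.Agent.H7.SLP.H5L

/-!
# Polynomials in one variable: the sum of the absolute values of the coefficients
-/

set_option autoImplicit false

namespace Pool.JM

open Finset

open Polynomial in
/-- The sum of the absolute values of the coefficients. -/
noncomputable def l1F (p : ℝ[X]) : ℝ := ∑ i ∈ p.support, |p.coeff i|

open Polynomial in
theorem l1F_eq {p : ℝ[X]} {T : Finset ℕ} (h : p.support ⊆ T) : l1F p = ∑ i ∈ T, |p.coeff i| := by
  unfold l1F
  refine Finset.sum_subset h fun s _ hs => ?_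
  rw [notMem_support_iff.1 hs, abs_zero]

open Polynomial in
theorem l1F_add (p q : ℝ[X]) : l1F (p + q) ≤ l1F p + l1F q := by
  classical
  rw [l1F_eq (support_add (p := p) (q := q)), l1F_eq (subset_union_left (s₁ := p.support)
    (s₂ := q.support)), l1F_eq (subset_union_right (s₁ := p.support) (s₂ := q.support)),
    ← Finset.sum_add_distrib]
  refine Finset.sum_le_sum fun s _ => ?_
  rw [coeff_add]
  exact abs_add_le _ _

open Polynomial in
theorem l1F_neg (p : ℝ[X]) : l1F (-p) = l1F p := by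
  unfold l1F
  rw [support_neg]
  refine Finset.sum_congr rfl fun s _ => ?_
  rw [coeff_neg, abs_neg]

open Polynomial in
theorem l1F_sum {ι : Type*} (T : Finset ι) (f : ι → ℝ[X]) :
    l1F (∑ i ∈ T, f i) ≤ ∑ i ∈ T, l1F (f i) := by
  classical
  induction T using Finset.induction_on with
  | empty => simp [l1F]
  | insert a T ha ih =>
    rw [Finset.sum_insert ha, Finset.sum_insert ha]
    exact (l1F_add _ _).trans (add_le_add_right ih _)

open Polynomial in
theorem l1F_monomial (n : ℕ) (a : ℝ) : l1F (monomial n a) = |a| := by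
  rw [l1F_eq (support_monomial_subset (n := n) (a := a)), Finset.sum_singleton, coeff_monomial,
    if_pos rfl]

open Polynomial in
theorem l1F_mul (p q : ℝ[X]) : l1F (p * q) ≤ l1F p * l1F q := by
  classical
  have h1 : p * q = ∑ s ∈ p.support, ∑ t ∈ q.support,
      monomial (s + t) (p.coeff s * q.coeff t) := by
    conv_lhs => rw [← sum_monomial_eq p, ← sum_monomial_eq q]
    unfold Polynomial.sum
    rw [Finset.sum_mul_sum]
    simp only [monomial_mul_monomial]
  rw [h1]
  refine (l1F_sum _ _).trans ?_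
  refine (Finset.sum_le_sum fun s _ => l1F_sum _ _).trans ?_
  unfold l1F
  rw [Finset.sum_mul_sum]
  refine Finset.sum_le_sum fun s _ => Finset.sum_le_sum fun t _ => ?_
  have := l1F_monomial (s + t) (p.coeff s * q.coeff t)
  unfold l1F at this
  rw [this, abs_mul]

open Polynomial in
/-- The ring seminorm. -/
noncomputable def l1 : RingSeminorm ℝ[X] where
  toFun := l1F
  map_zero' := by simp [l1F]
  add_le' := l1F_add
  neg' := l1F_neg
  mul_le' := l1F_mul

open Polynomial in
theorem l1_apply (p : ℝ[X]) : l1 p = l1F p := rfl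

open Polynomial in
theorem l1_C (a : ℝ) : l1 (C a) = |a| := by
  rw [l1_apply, ← monomial_zero_left, l1F_monomial]

open Polynomial in
theorem l1_X : l1 (X : ℝ[X]) = 1 := by
  rw [l1_apply, X, l1F_monomial, abs_one]

open Polynomial in
/-- The value on the unit interval. -/
theorem abs_eval_le_l1 (p : ℝ[X]) {τ : ℝ} (hτ : |τ| ≤ 1) : |p.eval τ| ≤ l1 p := by
  rw [l1_apply, eval_eq_sum]
  unfold l1F Polynomial.sum
  refine (Finset.abs_sum_le_sum_abs _ _).trans (Finset.sum_le_sum fun i _ => ?_)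
  rw [abs_mul, abs_pow]
  calc |p.coeff i| * |τ| ^ i ≤ |p.coeff i| * 1 :=
        mul_le_mul_of_nonneg_left (pow_le_one₀ (abs_nonneg _) hτ) (abs_nonneg _)
    _ = _ := mul_one _

open Polynomial in
/-- The coefficients from the maximum on `[0, 1]`. -/
theorem l1_le_sup (D : ℕ) : ∃ C : ℝ, 1 ≤ C ∧ ∀ (p : ℝ[X]) (M : ℝ), p.natDegree ≤ D →
    (∀ τ : ℝ, 0 ≤ τ → τ ≤ 1 → |p.eval τ| ≤ M) → l1 p ≤ C * M := by
  classical
  -- the nodes
  obtain ⟨v, hv⟩ : ∃ v : ℕ → ℝ, v = fun i : ℕ => (i : ℝ) / (D + 1) := ⟨_, rfl⟩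
  have hD : (0 : ℝ) < D + 1 := by positivity
  have hvi : Set.InjOn v (range (D + 1) : Finset ℕ) := by
    intro i _ j _ h
    rw [hv] at h
    simp only at h
    rw [div_left_inj' hD.ne'] at h
    exact_mod_cast h
  have hv0 : ∀ i ∈ range (D + 1), 0 ≤ v i ∧ v i ≤ 1 := by
    intro i hi
    rw [mem_range] at hi
    rw [hv]
    simp only
    refine ⟨by positivity, ?_⟩
    rw [div_le_one hD]
    exact_mod_cast hi.le
  obtain ⟨B, hB⟩ : ∃ B : ℝ, B = ∑ i ∈ range (D + 1), l1 (Lagrange.basis (range (D + 1)) v i) :=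
    ⟨_, rfl⟩
  have hB0 : 0 ≤ B := by
    rw [hB]
    exact Finset.sum_nonneg fun _ _ => apply_nonneg _ _
  refine ⟨B + 1, by linarith, fun p M hp hM => ?_⟩
  have hM0 : 0 ≤ M := (abs_nonneg _).trans (hM 0 le_rfl zero_le_one)
  have h1 : p = Lagrange.interpolate (range (D + 1)) v fun i => p.eval (v i) := by
    refine Lagrange.eq_interpolate hvi ?_
    rw [card_range]
    refine (degree_le_natDegree).trans_lt ?_
    exact_mod_cast Nat.lt_succ_of_le hp
  have h2 : l1 p ≤ ∑ i ∈ range (D + 1), M * l1 (Lagrange.basis (range (D + 1)) v i) := by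
    conv_lhs => rw [h1, Lagrange.interpolate_apply]
    refine (semi_sum l1 _ _).trans (Finset.sum_le_sum fun i hi => ?_)
    refine (map_mul_le_mul l1 _ _).trans (mul_le_mul_of_nonneg_right ?_ (apply_nonneg _ _))
    rw [l1_C]
    exact hM _ (hv0 i hi).1 (hv0 i hi).2
  rw [← Finset.mul_sum, ← hB] at h2
  nlinarith

/-! ### Coefficients in `ℝ[X]` -/

open MvPolynomial in
/-- The value at `τ`. -/
noncomputable def evT (σ : Type*) (τ : ℝ) : MvPolynomial σ (Polynomial ℝ) →+* MvPolynomial σ ℝ :=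
  MvPolynomial.map (Polynomial.evalRingHom τ)

open MvPolynomial in
theorem coeff_evT {σ : Type*} (τ : ℝ) (f : MvPolynomial σ (Polynomial ℝ)) (s : σ →₀ ℕ) :
    coeff s (evT σ τ f) = (coeff s f).eval τ := by
  unfold evT
  rw [coeff_map]
  rfl

open MvPolynomial in
theorem nrm_evT {σ : Type*} {K : ℕ∞} {ρ : ℝ} (hρ : 0 ≤ ρ) {τ : ℝ} (hτ : |τ| ≤ 1)
    (f : MvPolynomial σ (Polynomial ℝ)) : nrm absS K hρ (evT σ τ f) ≤ nrm l1 K hρ f := by
  rw [nrm_apply, nrm_apply]
  rw [nrmF_eq absS (T := f.support)]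
  · unfold nrmF
    refine Finset.sum_le_sum fun s _ => ?_
    rw [coeff_evT]
    unfold wt
    split_ifs
    · exact mul_le_mul_of_nonneg_right (abs_eval_le_l1 _ hτ) (pow_nonneg hρ _)
    · exact le_rfl
  · intro s hs
    rw [mem_support_iff, coeff_evT] at hs
    refine mem_support_iff.2 fun h => hs ?_
    rw [h, Polynomial.eval_zero]

open MvPolynomial in
/-- The filtration by the degree in the variables and the degree of the coefficients. -/
def filT (σ : Type*) : Fil (MvPolynomial σ (Polynomial ℝ)) where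
  P := fun n f => f.totalDegree ≤ n ∧ ∀ s, (coeff s f).natDegree ≤ n
  zero := fun n => by simp
  mono := fun h h1 => ⟨h1.1.trans h, fun s => (h1.2 s).trans h⟩
  add := fun {n x y} h1 h2 => ⟨(totalDegree_add x y).trans (max_le h1.1 h2.1), fun s => by
    rw [coeff_add]
    exact (Polynomial.natDegree_add_le _ _).trans (max_le (h1.2 s) (h2.2 s))⟩
  neg := fun {n x} h => ⟨by rw [totalDegree_neg]; exact h.1, fun s => by
    rw [coeff_neg, Polynomial.natDegree_neg]
    exact h.2 s⟩
  mul := fun {m n x y} h1 h2 => ⟨(totalDegree_mul x y).trans (add_le_add h1.1 h2.1), fun s => by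
    classical
    rw [coeff_mul]
    refine Polynomial.natDegree_sum_le_of_forall_le _ _ fun a _ => ?_
    exact Polynomial.natDegree_mul_le.trans (add_le_add (h1.2 _) (h2.2 _))⟩

open MvPolynomial in
/-- The coefficients from the maximum on the unit cube. -/
theorem nrm_le_sup (d K : ℕ) : ∃ C : ℝ, 1 ≤ C ∧ ∀ (f : MvPolynomial (Fin d) ℝ) (M : ℝ),
    f.totalDegree ≤ K → (∀ y : Fin d → ℝ, (∀ i, 0 ≤ y i ∧ y i ≤ 1) → |eval y f| ≤ M) →
      nrm absS ⊤ zero_le_one f ≤ C * M := by
  obtain ⟨C, hC, h⟩ := Pool.SLP.coef_cube d K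
  refine ⟨C, hC, fun f M hf hM => ?_⟩
  have h1 := h f M (fun _ => 0) hf (fun _ => by norm_num) (fun y hy => hM y fun j => by
    have := hy j
    constructor
    · exact this.1
    · linarith [this.2])
  refine le_trans (le_of_eq ?_) h1
  rw [nrm_apply]
  unfold nrmF Pool.KAL.coefSum
  refine Finset.sum_congr rfl fun s _ => ?_
  unfold wt
  simp [absS_apply]

end Pool.JM
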