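import Mathlib

/-!
# Weighted coefficient norms

`nrm p K ρ`: the sum of the norms of the coefficients of total degree at most `K` of a polynomial,
with the weights `ρ ^ deg`, as a seminorm of the ring of polynomials. `K = ⊤` is allowed.
-/

set_option autoImplicit false

namespace Pool.JM

open MvPolynomial Finset

section

variable {σ A : Type*} [CommRing A] (p : RingSeminorm A) (K : ℕ∞) (ρ : ℝ)

open Classical in
/-- The weighted size of a coefficient. -/
noncomputable def wt (s : σ →₀ ℕ) (a : A) : ℝ :=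
  if (s.degree : ℕ∞) ≤ K then p a * ρ ^ s.degree else 0

/-- The weighted sum of the coefficients. -/
noncomputable def nrmF (f : MvPolynomial σ A) : ℝ := ∑ s ∈ f.support, wt p K ρ s (coeff s f)

variable {K ρ}

theorem wt_zero (s : σ →₀ ℕ) : wt p K ρ s 0 = 0 := by
  unfold wt
  split_ifs <;> simp

theorem wt_nonneg (hρ : 0 ≤ ρ) (s : σ →₀ ℕ) (a : A) : 0 ≤ wt p K ρ s a := by
  unfold wt
  split_ifs
  · exact mul_nonneg (apply_nonneg p a) (pow_nonneg hρ _)
  · exact le_rfl

theorem wt_add (hρ : 0 ≤ ρ) (s : σ →₀ ℕ) (a b : A) :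
    wt p K ρ s (a + b) ≤ wt p K ρ s a + wt p K ρ s b := by
  unfold wt
  split_ifs
  · rw [← add_mul]
    exact mul_le_mul_of_nonneg_right (map_add_le_add p a b) (pow_nonneg hρ _)
  · simp

theorem wt_neg (s : σ →₀ ℕ) (a : A) : wt p K ρ s (-a) = wt p K ρ s a := by
  unfold wt
  split_ifs
  · rw [map_neg_eq_map]
  · rfl

theorem wt_mul (hρ : 0 ≤ ρ) (s t : σ →₀ ℕ) (a b : A) :
    wt p K ρ (s + t) (a * b) ≤ wt p K ρ s a * wt p K ρ t b := by
  unfold wt
  have h0 : (s + t).degree = s.degree + t.degree := map_add _ _ _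
  split_ifs with h1 h2 h3 h3
  · rw [h0, pow_add]
    calc p (a * b) * (ρ ^ s.degree * ρ ^ t.degree)
        ≤ p a * p b * (ρ ^ s.degree * ρ ^ t.degree) :=
          mul_le_mul_of_nonneg_right (map_mul_le_mul p a b) (by positivity)
      _ = p a * ρ ^ s.degree * (p b * ρ ^ t.degree) := by ring
  · exact absurd ((Nat.cast_le.2 (by rw [h0]; exact Nat.le_add_left _ _)).trans h1) h3
  · exact absurd ((Nat.cast_le.2 (by rw [h0]; exact Nat.le_add_right _ _)).trans h1) h2
  · exact absurd ((Nat.cast_le.2 (by rw [h0]; exact Nat.le_add_right _ _)).trans h1) h2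
  · exact mul_nonneg (mul_nonneg (apply_nonneg p a) (pow_nonneg hρ _))
      (mul_nonneg (apply_nonneg p b) (pow_nonneg hρ _))
  all_goals simp

theorem nrmF_eq {f : MvPolynomial σ A} {T : Finset (σ →₀ ℕ)} (h : f.support ⊆ T) :
    nrmF p K ρ f = ∑ s ∈ T, wt p K ρ s (coeff s f) := by
  unfold nrmF
  refine Finset.sum_subset h fun s _ hs => ?_
  rw [notMem_support_iff.1 hs, wt_zero]

theorem nrmF_zero : nrmF p K ρ (0 : MvPolynomial σ A) = 0 := by
  unfold nrmF
  simp

theorem nrmF_add (hρ : 0 ≤ ρ) (f g : MvPolynomial σ A) :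
    nrmF p K ρ (f + g) ≤ nrmF p K ρ f + nrmF p K ρ g := by
  classical
  rw [nrmF_eq p (support_add (p := f) (q := g)), nrmF_eq p (subset_union_left (s₁ := f.support)
    (s₂ := g.support)), nrmF_eq p (subset_union_right (s₁ := f.support) (s₂ := g.support)),
    ← Finset.sum_add_distrib]
  refine Finset.sum_le_sum fun s _ => ?_
  rw [coeff_add]
  exact wt_add p hρ s _ _

theorem nrmF_neg (f : MvPolynomial σ A) : nrmF p K ρ (-f) = nrmF p K ρ f := by
  unfold nrmF
  rw [support_neg]
  refine Finset.sum_congr rfl fun s _ => ?_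
  rw [coeff_neg, wt_neg]

theorem nrmF_nonneg (hρ : 0 ≤ ρ) (f : MvPolynomial σ A) : 0 ≤ nrmF p K ρ f :=
  Finset.sum_nonneg fun _ _ => wt_nonneg p hρ _ _

theorem nrmF_sum (hρ : 0 ≤ ρ) {ι : Type*} (T : Finset ι) (f : ι → MvPolynomial σ A) :
    nrmF p K ρ (∑ i ∈ T, f i) ≤ ∑ i ∈ T, nrmF p K ρ (f i) := by
  classical
  induction T using Finset.induction_on with
  | empty => simp [nrmF_zero]
  | insert a T ha ih =>
    rw [Finset.sum_insert ha, Finset.sum_insert ha]
    exact (nrmF_add p hρ _ _).trans (add_le_add_right ih _)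

theorem nrmF_monomial (s : σ →₀ ℕ) (a : A) : nrmF p K ρ (monomial s a) = wt p K ρ s a := by
  classical
  rw [nrmF_eq p (support_monomial_subset (s := s) (a := a)), Finset.sum_singleton,
    coeff_monomial, if_pos rfl]

theorem nrmF_mul (hρ : 0 ≤ ρ) (f g : MvPolynomial σ A) :
    nrmF p K ρ (f * g) ≤ nrmF p K ρ f * nrmF p K ρ g := by
  classical
  have h1 : f * g = ∑ s ∈ f.support, ∑ t ∈ g.support,
      monomial (s + t) (coeff s f * coeff t g) := by
    conv_lhs => rw [← support_sum_monomial_coeff f, ← support_sum_monomial_coeff g]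
    rw [Finset.sum_mul_sum]
    simp only [monomial_mul]
  rw [h1]
  refine (nrmF_sum p hρ _ _).trans ?_
  refine (Finset.sum_le_sum fun s _ => nrmF_sum p hρ _ _).trans ?_
  unfold nrmF
  rw [Finset.sum_mul_sum]
  refine Finset.sum_le_sum fun s _ => Finset.sum_le_sum fun t _ => ?_
  have := nrmF_monomial p (K := K) (ρ := ρ) (s + t) (coeff s f * coeff t g)
  unfold nrmF at this
  rw [this]
  exact wt_mul p hρ s t _ _

variable (K)

/-- The weighted norm as a seminorm of the ring. -/
noncomputable def nrm (hρ : 0 ≤ ρ) : RingSeminorm (MvPolynomial σ A) where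
  toFun := nrmF p K ρ
  map_zero' := nrmF_zero p
  add_le' := nrmF_add p hρ
  neg' := nrmF_neg p
  mul_le' := nrmF_mul p hρ

theorem nrm_apply (hρ : 0 ≤ ρ) (f : MvPolynomial σ A) : nrm p K hρ f = nrmF p K ρ f := rfl

variable {K}

theorem nrm_C (hρ : 0 ≤ ρ) (a : A) : nrm p K hρ (C a : MvPolynomial σ A) = p a := by
  rw [nrm_apply, ← monomial_zero', nrmF_monomial]
  unfold wt
  simp

theorem nrm_X (hρ : 0 ≤ ρ) (i : σ) : nrm p K hρ (X i : MvPolynomial σ A) ≤ p 1 * ρ := by
  rw [nrm_apply, X, nrmF_monomial]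
  unfold wt
  split_ifs
  · simp
  · exact mul_nonneg (apply_nonneg p _) hρ

/-- The norm is increasing in the radius. -/
theorem nrm_mono {ρ' : ℝ} (hρ : 0 ≤ ρ) (h : ρ ≤ ρ') (f : MvPolynomial σ A) :
    nrm p K hρ f ≤ nrm p K (hρ.trans h) f := by
  rw [nrm_apply, nrm_apply]
  unfold nrmF wt
  refine Finset.sum_le_sum fun s _ => ?_
  split_ifs
  · exact mul_le_mul_of_nonneg_left (pow_le_pow_left₀ hρ h _) (apply_nonneg p _)
  · exact le_rfl

/-- The norm without truncation is larger. -/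
theorem nrm_top (hρ : 0 ≤ ρ) (f : MvPolynomial σ A) : nrm p K hρ f ≤ nrm p ⊤ hρ f := by
  rw [nrm_apply, nrm_apply]
  unfold nrmF wt
  refine Finset.sum_le_sum fun s _ => ?_
  split_ifs with h1 h2 h2
  · exact le_rfl
  · exact absurd le_top h2
  · exact mul_nonneg (apply_nonneg p _) (pow_nonneg hρ _)
  · exact le_rfl

/-- A coefficient from the norm. -/
theorem coeff_le (hρ : 0 ≤ ρ) (f : MvPolynomial σ A) {s : σ →₀ ℕ} (hs : (s.degree : ℕ∞) ≤ K) :
    p (coeff s f) * ρ ^ s.degree ≤ nrm p K hρ f := by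
  classical
  rw [nrm_apply]
  by_cases h : s ∈ f.support
  · have h1 := Finset.single_le_sum (f := fun s => wt p K ρ s (coeff s f))
      (fun s _ => wt_nonneg p hρ s _) h
    have h2 : wt p K ρ s (coeff s f) = p (coeff s f) * ρ ^ s.degree := if_pos hs
    rw [← h2]
    exact h1
  · rw [notMem_support_iff.1 h, map_zero, zero_mul]
    exact nrmF_nonneg p hρ f

/-- A polynomial without constant coefficient: the norm for a small radius. -/
theorem nrm_small (hρ : 0 ≤ ρ) (hρ1 : ρ ≤ 1) (f : MvPolynomial σ A) (h0 : coeff 0 f = 0) :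
    nrm p K hρ f ≤ ρ * nrm p K zero_le_one f := by
  rw [nrm_apply, nrm_apply]
  unfold nrmF
  rw [Finset.mul_sum]
  refine Finset.sum_le_sum fun s hs => ?_
  unfold wt
  split_ifs
  · rw [one_pow, mul_one, mul_comm ρ]
    refine mul_le_mul_of_nonneg_left ?_ (apply_nonneg p _)
    have hs0 : s ≠ 0 := by
      rintro rfl
      exact (mem_support_iff.1 hs) h0
    have h1 : s.degree ≠ 0 := by
      intro h
      exact hs0 ((Finsupp.degree_eq_zero_iff s).1 h)
    calc ρ ^ s.degree ≤ ρ ^ 1 := pow_le_pow_of_le_one hρ hρ1 (Nat.one_le_iff_ne_zero.2 h1)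
      _ = ρ := pow_one ρ
  · rw [mul_zero]

end

section real

variable {σ : Type*}

/-- The absolute value. -/
noncomputable def absS : RingSeminorm ℝ where
  toFun := fun x => |x|
  map_zero' := abs_zero
  add_le' := abs_add_le
  neg' := abs_neg
  mul_le' := fun x y => (abs_mul x y).le

theorem absS_apply (x : ℝ) : absS x = |x| := rfl

/-- The value of a polynomial from its norm. -/
theorem abs_eval_le {ρ : ℝ} (hρ : 0 ≤ ρ) {K : ℕ} (f : MvPolynomial σ ℝ) (hf : f.totalDegree ≤ K)
    (x : σ → ℝ) (hx : ∀ i, |x i| ≤ ρ) : |eval x f| ≤ nrm absS K hρ f := by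
  rw [nrm_apply, eval_eq]
  unfold nrmF
  refine (Finset.abs_sum_le_sum_abs _ _).trans (Finset.sum_le_sum fun s hs => ?_)
  have h1 : s.degree ≤ K := by
    refine le_trans ?_ hf
    exact le_totalDegree hs
  unfold wt
  rw [if_pos (Nat.cast_le.2 h1), absS_apply, abs_mul]
  refine mul_le_mul_of_nonneg_left ?_ (abs_nonneg _)
  have h2 : ρ ^ s.degree = ∏ i ∈ s.support, ρ ^ s i := (Finset.prod_pow_eq_pow_sum _ _ _).symm
  rw [Finset.abs_prod, h2]
  refine Finset.prod_le_prod (fun i _ => abs_nonneg _) fun i _ => ?_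
  rw [abs_pow]
  exact pow_le_pow_left₀ (abs_nonneg _) (hx i) _

/-- The norm is a continuous function of the radius. -/
theorem nrmF_continuous (K : ℕ∞) (f : MvPolynomial σ ℝ) : Continuous fun ρ => nrmF absS K ρ f := by
  unfold nrmF
  refine continuous_finsetSum _ fun s _ => ?_
  unfold wt
  by_cases h : (s.degree : ℕ∞) ≤ K
  · simp only [if_pos h]
    exact continuous_const.mul (continuous_pow _)
  · simp only [if_neg h]
    exact continuous_const

theorem nrmF_at_zero (K : ℕ∞) (f : MvPolynomial σ ℝ) : nrmF absS K 0 f = |coeff 0 f| := by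
  classical
  have h1 : ∀ s ∈ f.support, s ≠ 0 → wt absS K 0 s (coeff s f) = 0 := by
    intro s _ hs
    unfold wt
    have h2 : s.degree ≠ 0 := fun h => hs ((Finsupp.degree_eq_zero_iff s).1 h)
    split_ifs
    · rw [zero_pow h2, mul_zero]
    · rfl
  have h3 : wt absS K 0 (0 : σ →₀ ℕ) (coeff 0 f) = |coeff 0 f| := by
    unfold wt
    simp [absS_apply]
  unfold nrmF
  by_cases h : (0 : σ →₀ ℕ) ∈ f.support
  · rw [Finset.sum_eq_single_of_mem 0 h h1, h3]
  · rw [notMem_support_iff.1 h, abs_zero]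
    exact Finset.sum_eq_zero fun s hs => h1 s hs (fun h' => h (h' ▸ hs))

end real

end Pool.JM
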