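import Pool.Agent.H10.JM.Cmp

/-!
# The simplified Newton iteration in a ring with a seminorm

`newton`: an approximate root of `c 0 + c 1 * h + …`, if `c 1` is invertible up to `θ / 2` and `c 0`
is small, with degrees (`Fil`).

`l1`: the sum of the absolute values of the coefficients of a polynomial in one variable.
-/

set_option autoImplicit false

namespace Pool.JM

open Polynomial Finset

section newton

variable {R : Type*} [CommRing R] (N : RingSeminorm R)

theorem pow_sub_le (x y : R) {δ : ℝ} (hx : N x ≤ δ) (hy : N y ≤ δ) (m : ℕ) :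
    N (x ^ (m + 1) - y ^ (m + 1)) ≤ (m + 1) * δ ^ m * N (x - y) := by
  have hδ : 0 ≤ δ := (apply_nonneg N x).trans hx
  induction m with
  | zero => simp
  | succ m ih =>
    have e1 : x ^ (m + 1 + 1) - y ^ (m + 1 + 1) =
        x ^ (m + 1) * (x - y) + (x ^ (m + 1) - y ^ (m + 1)) * y := by ring
    rw [e1]
    refine (map_add_le_add N _ _).trans ?_
    have h1 : N (x ^ (m + 1) * (x - y)) ≤ δ ^ (m + 1) * N (x - y) := by
      refine (map_mul_le_mul N _ _).trans (mul_le_mul_of_nonneg_right ?_ (apply_nonneg N _))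
      exact (nrm_pow N x m).trans (pow_le_pow_left₀ (apply_nonneg N _) hx _)
    have h2 : N ((x ^ (m + 1) - y ^ (m + 1)) * y) ≤ (m + 1) * δ ^ m * N (x - y) * δ := by
      refine (map_mul_le_mul N _ _).trans (mul_le_mul ih hy (apply_nonneg N _) ?_)
      exact mul_nonneg (mul_nonneg (by positivity) (pow_nonneg hδ _)) (apply_nonneg N _)
    refine (add_le_add h1 h2).trans (le_of_eq ?_)
    push_cast
    ring

theorem semi_sum {ι : Type*} (s : Finset ι) (f : ι → R) : N (∑ i ∈ s, f i) ≤ ∑ i ∈ s, N (f i) := by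
  classical
  induction s using Finset.induction_on with
  | empty => simp
  | insert a s ha ih =>
    rw [Finset.sum_insert ha, Finset.sum_insert ha]
    exact (map_add_le_add N _ _).trans (add_le_add_right ih _)

/-- The value of the polynomial with the coefficients `c`. -/
def Fv (c : ℕ → R) (D : ℕ) (h : R) : R := ∑ m ∈ range (D + 2), c m * h ^ m

/-- A filtration of the ring by degrees. -/
structure Fil (R : Type*) [CommRing R] where
  P : ℕ → R → Prop
  zero : ∀ n, P n 0
  mono : ∀ {m n x}, m ≤ n → P m x → P n x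
  add : ∀ {n x y}, P n x → P n y → P n (x + y)
  neg : ∀ {n x}, P n x → P n (-x)
  mul : ∀ {m n x y}, P m x → P n y → P (m + n) (x * y)

theorem Fil.sub (𝓕 : Fil R) {n : ℕ} {x y : R} (h1 : 𝓕.P n x) (h2 : 𝓕.P n y) : 𝓕.P n (x - y) := by
  rw [sub_eq_add_neg]
  exact 𝓕.add h1 (𝓕.neg h2)

theorem Fil.sum (𝓕 : Fil R) {ι : Type*} (s : Finset ι) (f : ι → R) {n : ℕ}
    (h : ∀ i ∈ s, 𝓕.P n (f i)) : 𝓕.P n (∑ i ∈ s, f i) := by
  classical
  induction s using Finset.induction_on with
  | empty => exact 𝓕.zero n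
  | insert a s ha ih =>
    rw [Finset.sum_insert ha]
    exact 𝓕.add (h a (mem_insert_self _ _)) (ih fun i hi => h i (mem_insert_of_mem hi))

theorem Fil.pow (𝓕 : Fil R) {n : ℕ} {x : R} (h : 𝓕.P n x) (m : ℕ) :
    𝓕.P ((m + 1) * n) (x ^ (m + 1)) := by
  induction m with
  | zero => simpa using h
  | succ m ih =>
    rw [pow_succ]
    have := 𝓕.mul ih h
    rwa [show (m + 1) * n + n = (m + 1 + 1) * n by ring] at this

/-- The degree of the value. -/
theorem Fil.fv (𝓕 : Fil R) {c : ℕ → R} {D a n : ℕ} {x : R} (hc : ∀ m, 𝓕.P a (c m))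
    (hx : 𝓕.P n x) : 𝓕.P (a + (D + 1) * n) (Fv c D x) := by
  unfold Fv
  refine 𝓕.sum _ _ fun m hm => ?_
  rw [mem_range] at hm
  rcases m with _ | m
  · rw [pow_zero, mul_one]
    exact 𝓕.mono (Nat.le_add_right _ _) (hc 0)
  · refine 𝓕.mono ?_ (𝓕.mul (hc (m + 1)) (𝓕.pow hx m))
    have : m + 1 ≤ D + 1 := by omega
    exact Nat.add_le_add_left (Nat.mul_le_mul_right _ this) _

/-- The degrees of the iteration. -/
def degN (a D : ℕ) : ℕ → ℕ
  | 0 => 0
  | i + 1 => degN a D i + (a + (a + (D + 1) * degN a D i))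

/-- **The simplified Newton iteration.** -/
theorem newton (𝓕 : Fil R) (I : Ideal R) (c : ℕ → R) (ψ : R) (D a : ℕ) {θ δ : ℝ}
    (hI : c 0 ∈ I) (hθ0 : 0 ≤ θ) (hθ1 : θ ≤ 1)
    (hδ : 0 ≤ δ) (hc : ∀ m, 𝓕.P a (c m)) (hψ : 𝓕.P a ψ)
    (h1 : N (1 - ψ * c 1) ≤ θ / 2)
    (h2 : N ψ * ∑ m ∈ range D, N (c (m + 2)) * ((m + 2) * δ ^ (m + 1)) ≤ θ / 2)
    (h3 : N (ψ * c 0) ≤ (1 - θ) * δ) (i : ℕ) :
    ∃ h : R, h ∈ I ∧ N h ≤ δ ∧ 𝓕.P (degN a D i) h ∧
      N (Fv c D h) ≤ 2 * N (c 1) * (θ ^ i * δ) := by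
  -- the contraction
  have hlip : ∀ x y : R, N x ≤ δ → N y ≤ δ →
      N ((x - ψ * Fv c D x) - (y - ψ * Fv c D y)) ≤ θ * N (x - y) := by
    intro x y hx hy
    have e1 : (x - ψ * Fv c D x) - (y - ψ * Fv c D y) = (1 - ψ * c 1) * (x - y) -
        ψ * ∑ m ∈ range D, c (m + 2) * (x ^ (m + 1 + 1) - y ^ (m + 1 + 1)) := by
      have e2 : Fv c D x = c 0 + c 1 * x + ∑ m ∈ range D, c (m + 2) * x ^ (m + 1 + 1) := by
        unfold Fv
        rw [Finset.sum_range_succ', Finset.sum_range_succ', pow_zero, mul_one, zero_add, pow_one]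
        ring
      have e3 : Fv c D y = c 0 + c 1 * y + ∑ m ∈ range D, c (m + 2) * y ^ (m + 1 + 1) := by
        unfold Fv
        rw [Finset.sum_range_succ', Finset.sum_range_succ', pow_zero, mul_one, zero_add, pow_one]
        ring
      rw [e2, e3]
      simp only [mul_sub, Finset.sum_sub_distrib]
      ring
    rw [e1]
    refine (map_sub_le_add N _ _).trans ?_
    have a1 : N ((1 - ψ * c 1) * (x - y)) ≤ θ / 2 * N (x - y) :=
      (map_mul_le_mul N _ _).trans (mul_le_mul_of_nonneg_right h1 (apply_nonneg N _))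
    have a2 : N (∑ m ∈ range D, c (m + 2) * (x ^ (m + 1 + 1) - y ^ (m + 1 + 1))) ≤
        (∑ m ∈ range D, N (c (m + 2)) * ((m + 2) * δ ^ (m + 1))) * N (x - y) := by
      rw [Finset.sum_mul]
      refine (semi_sum N _ _).trans (Finset.sum_le_sum fun m _ => ?_)
      refine (map_mul_le_mul N _ _).trans ?_
      rw [mul_assoc]
      refine mul_le_mul_of_nonneg_left ?_ (apply_nonneg N _)
      refine (pow_sub_le N x y hx hy (m + 1)).trans (le_of_eq ?_)
      push_cast
      ring
    have a3 : N (ψ * ∑ m ∈ range D, c (m + 2) * (x ^ (m + 1 + 1) - y ^ (m + 1 + 1))) ≤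
        θ / 2 * N (x - y) := by
      refine (map_mul_le_mul N _ _).trans ?_
      refine (mul_le_mul_of_nonneg_left a2 (apply_nonneg N _)).trans ?_
      rw [← mul_assoc]
      exact mul_le_mul_of_nonneg_right h2 (apply_nonneg N _)
    linarith
  -- the iteration
  obtain ⟨h, hh0, hhs⟩ : ∃ h : ℕ → R, h 0 = 0 ∧ ∀ i, h (i + 1) = h i - ψ * Fv c D (h i) :=
    ⟨fun i => Nat.rec 0 (fun _ x => x - ψ * Fv c D x) i, rfl, fun _ => rfl⟩
  have hF0 : Fv c D 0 = c 0 := by
    unfold Fv
    rw [Finset.sum_range_succ', pow_zero, mul_one]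
    rw [Finset.sum_eq_zero, zero_add]
    intro m _
    rw [zero_pow (Nat.succ_ne_zero m), mul_zero]
  have key : ∀ i, N (h i) ≤ (1 - θ ^ i) * δ ∧ N (h (i + 1) - h i) ≤ θ ^ i * ((1 - θ) * δ) := by
    intro i
    induction i with
    | zero =>
      rw [hh0, map_zero, pow_zero]
      refine ⟨by simp, ?_⟩
      rw [hhs 0, hh0, hF0, sub_zero, zero_sub, map_neg_eq_map, one_mul]
      exact h3
    | succ i ih =>
      have b1 : N (h (i + 1)) ≤ (1 - θ ^ (i + 1)) * δ := by
        have b2 : h (i + 1) = h i + (h (i + 1) - h i) := by ring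
        rw [b2]
        refine (map_add_le_add N _ _).trans ((add_le_add ih.1 ih.2).trans (le_of_eq ?_))
        ring
      refine ⟨b1, ?_⟩
      have b3 : 0 ≤ θ ^ i := pow_nonneg hθ0 i
      have b4 : 0 ≤ θ ^ (i + 1) := pow_nonneg hθ0 _
      have b5 : N (h i) ≤ δ := ih.1.trans (by nlinarith)
      have b6 : N (h (i + 1)) ≤ δ := b1.trans (by nlinarith)
      have b7 := hlip (h (i + 1)) (h i) b6 b5
      rw [← hhs, ← hhs] at b7
      refine b7.trans ?_
      rw [pow_succ']
      rw [mul_assoc]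
      exact mul_le_mul_of_nonneg_left ih.2 hθ0
  have hdeg : ∀ i, 𝓕.P (degN a D i) (h i) := by
    intro i
    induction i with
    | zero =>
      rw [hh0]
      exact 𝓕.zero _
    | succ i ih =>
      rw [hhs]
      refine 𝓕.sub (𝓕.mono ?_ ih) (𝓕.mono ?_ (𝓕.mul hψ (𝓕.fv hc ih)))
      · show degN a D i ≤ degN a D i + _
        exact Nat.le_add_right _ _
      · show _ ≤ degN a D i + _
        exact Nat.le_add_left _ _
  have hmem : ∀ i, h i ∈ I := by
    intro i
    induction i with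
    | zero =>
      rw [hh0]
      exact I.zero_mem
    | succ i ih =>
      rw [hhs]
      refine I.sub_mem ih (I.mul_mem_left _ ?_)
      unfold Fv
      refine I.sum_mem fun m _ => ?_
      rcases m with _ | m
      · rw [pow_zero, mul_one]
        exact hI
      · rw [pow_succ]
        exact I.mul_mem_left _ (I.mul_mem_left _ ih)
  refine ⟨h i, hmem i, (key i).1.trans ?_, hdeg i, ?_⟩
  · have := pow_nonneg hθ0 i
    nlinarith
  · have e1 : Fv c D (h i) = (1 - ψ * c 1) * Fv c D (h i) + c 1 * (ψ * Fv c D (h i)) := by ring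
    have e2 : ψ * Fv c D (h i) = -(h (i + 1) - h i) := by
      rw [hhs]
      ring
    have a1 : N (Fv c D (h i)) ≤ θ / 2 * N (Fv c D (h i)) + N (c 1) * (θ ^ i * ((1 - θ) * δ)) := by
      conv_lhs => rw [e1]
      refine (map_add_le_add N _ _).trans (add_le_add ?_ ?_)
      · exact (map_mul_le_mul N _ _).trans (mul_le_mul_of_nonneg_right h1 (apply_nonneg N _))
      · rw [e2]
        refine (map_mul_le_mul N _ _).trans (mul_le_mul_of_nonneg_left ?_ (apply_nonneg N _))
        rw [map_neg_eq_map]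
        exact (key i).2
    have a2 : N (c 1) * (θ ^ i * ((1 - θ) * δ)) ≤ N (c 1) * (θ ^ i * δ) := by
      refine mul_le_mul_of_nonneg_left ?_ (apply_nonneg N _)
      refine mul_le_mul_of_nonneg_left ?_ (pow_nonneg hθ0 i)
      nlinarith
    have a3 : θ / 2 * N (Fv c D (h i)) ≤ 1 / 2 * N (Fv c D (h i)) :=
      mul_le_mul_of_nonneg_right (by linarith) (apply_nonneg N _)
    linarith

end newton

end Pool.JM
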