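import Pool.Agent.H10.JM.L1

/-!
# Triangular systems and substitutions
-/

set_option autoImplicit false

namespace Pool.JM

open Finset

section fix

variable {B : Type*} {d : ℕ} (P : (Fin d → B) → Fin d → B)

/-- The `j`-th equation depends only on the unknowns before `j`. -/
def Tri : Prop := ∀ v w j, (∀ i, i < j → v i = w i) → P v j = P w j

variable {P}

theorem tri_stab (h : Tri P) (x : Fin d → B) (k : ℕ) :
    ∀ j : Fin d, (j : ℕ) < k → (P^[k] x) j = (P^[k + 1] x) j := by
  induction k with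
  | zero =>
    intro j hj
    exact absurd hj (Nat.not_lt_zero _)
  | succ k ih =>
    intro j hj
    rw [Function.iterate_succ_apply', Function.iterate_succ_apply' P (k + 1)]
    refine h _ _ j fun i hi => ih i ?_
    have : (i : ℕ) < j := hi
    omega

/-- A triangular system has a solution, obtained by iteration. -/
theorem tri_fix (h : Tri P) (x : Fin d → B) : P (P^[d] x) = P^[d] x := by
  funext j
  have := tri_stab h x d j j.2
  rw [Function.iterate_succ_apply'] at this
  exact this.symm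

/-- A triangular system has one solution. -/
theorem tri_uniq (h : Tri P) {v w : Fin d → B} (hv : P v = v) (hw : P w = w) : v = w := by
  funext j
  obtain ⟨j, hj⟩ := j
  induction j using Nat.strong_induction_on with
  | _ j ih =>
    rw [← congrFun hv, ← congrFun hw]
    exact h v w _ fun i hi => ih i hi i.2

/-- A property of all iterates. -/
theorem iter_prop {Q : ℕ → B → Prop} {F : ℕ → ℕ} {x : Fin d → B} {a : ℕ} (hx : ∀ j, Q a (x j))
    (hP : ∀ n v, (∀ j, Q n (v j)) → ∀ j, Q (F n) (P v j)) (k : ℕ) :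
    ∀ j, Q (F^[k] a) (P^[k] x j) := by
  induction k with
  | zero => exact hx
  | succ k ih =>
    rw [Function.iterate_succ_apply', Function.iterate_succ_apply' P]
    exact hP _ _ ih

end fix

section

variable {R : Type*} [CommRing R]

theorem semi_prod (N : RingSeminorm R) (hN1 : N 1 ≤ 1) {ι : Type*} (s : Finset ι) (f : ι → R) :
    N (∏ i ∈ s, f i) ≤ ∏ i ∈ s, N (f i) := by
  classical
  induction s using Finset.induction_on with
  | empty => simpa using hN1
  | insert a s ha ih =>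
    rw [Finset.prod_insert ha, Finset.prod_insert ha]
    exact (map_mul_le_mul N _ _).trans (mul_le_mul_of_nonneg_left ih (apply_nonneg N _))

theorem semi_pow (N : RingSeminorm R) (hN1 : N 1 ≤ 1) (x : R) (n : ℕ) : N (x ^ n) ≤ N x ^ n := by
  rcases n with _ | n
  · simpa using hN1
  · exact nrm_pow N x n

theorem Fil.prod (𝓕 : Fil R) (h1 : 𝓕.P 0 1) {ι : Type*} (s : Finset ι) (f : ι → R) (n : ι → ℕ)
    (h : ∀ i ∈ s, 𝓕.P (n i) (f i)) : 𝓕.P (∑ i ∈ s, n i) (∏ i ∈ s, f i) := by
  classical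
  induction s using Finset.induction_on with
  | empty => simpa using h1
  | insert a s ha ih =>
    rw [Finset.prod_insert ha, Finset.sum_insert ha]
    exact 𝓕.mul (h a (mem_insert_self _ _)) (ih fun i hi => h i (mem_insert_of_mem hi))

theorem Fil.pow' (𝓕 : Fil R) (h1 : 𝓕.P 0 1) {n : ℕ} {x : R} (h : 𝓕.P n x) (m : ℕ) :
    𝓕.P (m * n) (x ^ m) := by
  rcases m with _ | m
  · simpa using h1
  · exact 𝓕.pow h m

end

section subst

open MvPolynomial

variable {R : Type*} [CommRing R] [Algebra ℝ R] {σ : Type*}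

/-- The norm of a value of a polynomial. -/
theorem semi_aeval (N : RingSeminorm R) (hN : ∀ c : ℝ, N (algebraMap ℝ R c) ≤ |c|) (w : σ → R)
    {W : ℝ} (hW : 1 ≤ W) (hw : ∀ i, N (w i) ≤ W) (H : MvPolynomial σ ℝ) {K : ℕ}
    (hK : H.totalDegree ≤ K) : N (aeval w H) ≤ Pool.KAL.coefSum H * W ^ K := by
  have hN1 : N 1 ≤ 1 := by
    have := hN 1
    rwa [map_one, abs_one] at this
  have hW0 : 0 ≤ W := zero_le_one.trans hW
  rw [aeval_def, eval₂_eq]
  refine (semi_sum N _ _).trans ?_
  unfold Pool.KAL.coefSum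
  rw [Finset.sum_mul]
  refine Finset.sum_le_sum fun s hs => ?_
  refine (map_mul_le_mul N _ _).trans (mul_le_mul (hN _) ?_ (apply_nonneg N _) (abs_nonneg _))
  refine (semi_prod N hN1 _ _).trans ?_
  have h1 : ∏ i ∈ s.support, N (w i ^ s i) ≤ ∏ i ∈ s.support, W ^ s i := by
    refine Finset.prod_le_prod (fun i _ => apply_nonneg N _) fun i _ => ?_
    exact (semi_pow N hN1 _ _).trans (pow_le_pow_left₀ (apply_nonneg N _) (hw i) _)
  refine h1.trans ?_
  rw [Finset.prod_pow_eq_pow_sum]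
  refine pow_le_pow_right₀ hW ?_
  exact (le_totalDegree hs).trans hK

/-- The degree of a value of a polynomial. -/
theorem Fil.aeval (𝓕 : Fil R) (hF : ∀ c : ℝ, 𝓕.P 0 (algebraMap ℝ R c)) (w : σ → R) {n : ℕ}
    (hw : ∀ i, 𝓕.P n (w i)) (H : MvPolynomial σ ℝ) {K : ℕ} (hK : H.totalDegree ≤ K) :
    𝓕.P (K * n) (MvPolynomial.aeval w H) := by
  have h1 : 𝓕.P 0 1 := by
    have := hF 1
    rwa [map_one] at this
  rw [aeval_def, eval₂_eq]
  refine 𝓕.sum _ _ fun s hs => ?_
  have h2 : 𝓕.P (∑ i ∈ s.support, s i * n) (∏ i ∈ s.support, w i ^ s i) :=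
    𝓕.prod h1 _ _ _ fun i _ => 𝓕.pow' h1 (hw i) _
  refine 𝓕.mono ?_ (𝓕.mul (hF _) h2)
  rw [zero_add, ← Finset.sum_mul]
  exact Nat.mul_le_mul_right _ ((le_totalDegree hs).trans hK)

/-- A ring homomorphism and substitution. -/
theorem hom_aeval (φ : R →+* ℝ) (hφ : ∀ c : ℝ, φ (algebraMap ℝ R c) = c) (w : σ → R)
    (H : MvPolynomial σ ℝ) : φ (aeval w H) = eval (fun i => φ (w i)) H := by
  rw [aeval_def, eval₂_eq, eval_eq, map_sum]
  refine Finset.sum_congr rfl fun s _ => ?_
  rw [map_mul, map_prod, hφ]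
  congr 1
  exact Finset.prod_congr rfl fun i _ => map_pow _ _ _

end subst

section taylor

open Polynomial

variable {R : Type*} [CommRing R]

/-- The expansion at `r`. -/
theorem taylor_sum (f : R[X]) {D : ℕ} (hf : f.natDegree ≤ D) (r s : R) :
    f.eval (r + s) = ∑ m ∈ range (D + 2), (hasseDeriv m f).eval r * s ^ m := by
  have h1 := taylor_eval r f s
  rw [add_comm r s, ← h1, eval_eq_sum_range' (n := D + 2)]
  · refine Finset.sum_congr rfl fun m _ => ?_
    rw [taylor_coeff]
  · rw [natDegree_taylor]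
    omega

/-- The values of the derivatives. -/
theorem hasse_eval (f : R[X]) {D : ℕ} (hf : f.natDegree ≤ D) (m : ℕ) (x : R) :
    (hasseDeriv m f).eval x = ∑ n ∈ range (D + 1), (n.choose m : R) * f.coeff n * x ^ (n - m) := by
  rw [hasseDeriv_apply, sum_over_range' f _ (D + 1) (Nat.lt_succ_of_le hf), eval_finsetSum]
  · refine Finset.sum_congr rfl fun n _ => ?_
    rw [eval_monomial]
  · intro n
    rw [mul_zero, monomial_zero_right]

/-- The norm of the value of a derivative. -/
theorem hasse_le (N : RingSeminorm R) (hN1 : ∀ n : ℕ, N (n : R) ≤ n) (f : R[X]) {D : ℕ}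
    (hf : f.natDegree ≤ D) (m : ℕ) (x : R) {A W : ℝ} (hA : ∀ n, N (f.coeff n) ≤ A) (hW : 1 ≤ W)
    (hx : N x ≤ W) : N ((hasseDeriv m f).eval x) ≤ (D + 1) * (2 ^ D * A * W ^ D) := by
  have hA0 : 0 ≤ A := (apply_nonneg N _).trans (hA 0)
  have h1 : N 1 ≤ 1 := by simpa using hN1 1
  rw [hasse_eval f hf]
  refine (semi_sum N _ _).trans ?_
  have h2 : ∀ n ∈ range (D + 1), N ((n.choose m : R) * f.coeff n * x ^ (n - m)) ≤
      2 ^ D * A * W ^ D := by
    intro n hn
    rw [mem_range] at hn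
    have hnD : n ≤ D := by omega
    have a1 : N ((n.choose m : ℕ) : R) ≤ 2 ^ D := by
      refine (hN1 _).trans ?_
      have b1 : n.choose m ≤ 2 ^ D :=
        (Nat.choose_le_two_pow n m).trans (Nat.pow_le_pow_right (by norm_num) hnD)
      exact_mod_cast b1
    have a2 : N (x ^ (n - m)) ≤ W ^ D := by
      rcases Nat.eq_zero_or_pos (n - m) with h | h
      · rw [h, pow_zero]
        exact h1.trans (one_le_pow₀ hW)
      · obtain ⟨k, hk⟩ : ∃ k, n - m = k + 1 := ⟨n - m - 1, by omega⟩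
        rw [hk]
        refine (nrm_pow N x k).trans ?_
        refine (pow_le_pow_left₀ (apply_nonneg N _) hx _).trans ?_
        exact pow_le_pow_right₀ hW (by omega)
    refine (map_mul_le_mul N _ _).trans (mul_le_mul ?_ a2 (apply_nonneg N _) (by positivity))
    exact (map_mul_le_mul N _ _).trans (mul_le_mul a1 (hA n) (apply_nonneg N _) (by positivity))
  refine (Finset.sum_le_sum h2).trans (le_of_eq ?_)
  rw [Finset.sum_const, card_range, nsmul_eq_mul]
  push_cast
  ring

/-- The degree of the value of a derivative. -/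
theorem hasse_fil (𝓕 : Fil R) (h1 : ∀ n : ℕ, 𝓕.P 0 (n : R)) (f : R[X]) {D : ℕ}
    (hf : f.natDegree ≤ D) (m : ℕ) (x : R) {a b : ℕ} (ha : ∀ n, 𝓕.P a (f.coeff n))
    (hx : 𝓕.P b x) : 𝓕.P (a + D * b) ((hasseDeriv m f).eval x) := by
  have h0 : 𝓕.P 0 1 := by simpa using h1 1
  rw [hasse_eval f hf]
  refine 𝓕.sum _ _ fun n hn => ?_
  rw [mem_range] at hn
  have a2 : 𝓕.P (D * b) (x ^ (n - m)) := by
    rcases Nat.eq_zero_or_pos (n - m) with h | h
    · rw [h, pow_zero]
      exact 𝓕.mono (Nat.zero_le _) h0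
    · obtain ⟨k, hk⟩ : ∃ k, n - m = k + 1 := ⟨n - m - 1, by omega⟩
      rw [hk]
      refine 𝓕.mono ?_ (𝓕.pow hx k)
      exact Nat.mul_le_mul_right _ (by omega)
  have a3 := 𝓕.mul (𝓕.mul (h1 (n.choose m)) (ha n)) a2
  rwa [zero_add] at a3

end taylor

end Pool.JM
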