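import Pool.Agent.H10.JM.Tri

/-!
# Truncation
-/

set_option autoImplicit false

namespace Pool.JM

open MvPolynomial Finset

section

variable {σ A : Type*} [CommRing A]

open Classical in
/-- The terms of degree at most `K`. -/
noncomputable def trk (K : ℕ) (f : MvPolynomial σ A) : MvPolynomial σ A :=
  ∑ s ∈ f.support.filter (fun s => s.degree ≤ K), monomial s (coeff s f)

theorem coeff_trk (K : ℕ) (f : MvPolynomial σ A) (s : σ →₀ ℕ) (hs : s.degree ≤ K) :
    coeff s (trk K f) = coeff s f := by
  classical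
  unfold trk
  rw [coeff_sum]
  simp only [coeff_monomial]
  by_cases h : s ∈ f.support
  · rw [Finset.sum_eq_single_of_mem s (mem_filter.2 ⟨h, hs⟩)]
    · rw [if_pos rfl]
    · intro t _ ht
      rw [if_neg ht]
  · rw [notMem_support_iff.1 h]
    refine Finset.sum_eq_zero fun t ht => ?_
    rw [if_neg]
    rintro rfl
    exact h (mem_filter.1 ht).1

theorem coeff_trk_zero (K : ℕ) (f : MvPolynomial σ A) (s : σ →₀ ℕ) (hs : ¬ s.degree ≤ K) :
    coeff s (trk K f) = 0 := by
  classical
  unfold trk
  rw [coeff_sum]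
  simp only [coeff_monomial]
  refine Finset.sum_eq_zero fun t ht => ?_
  rw [if_neg]
  rintro rfl
  exact hs (mem_filter.1 ht).2

theorem trk_degree (K : ℕ) (f : MvPolynomial σ A) : (trk K f).totalDegree ≤ K := by
  refine totalDegree_finsetSum_le fun s hs => ?_
  exact (totalDegree_monomial_le s _).trans (mem_filter.1 hs).2

variable (p : RingSeminorm A)

/-- The truncation does not change the norm. -/
theorem nrm_sub_trk (K : ℕ) {ρ : ℝ} (hρ : 0 ≤ ρ) (f : MvPolynomial σ A) :
    nrm p K hρ (f - trk K f) = 0 := by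
  rw [nrm_apply]
  unfold nrmF
  refine Finset.sum_eq_zero fun s _ => ?_
  unfold wt
  split_ifs with h
  · have h1 : s.degree ≤ K := by exact_mod_cast h
    rw [coeff_sub, coeff_trk K f s h1, sub_self, map_zero, zero_mul]
  · rfl

/-- From a small radius to the radius one. -/
theorem nrm_radius (K : ℕ) {ρ : ℝ} (hρ : 0 < ρ) (hρ1 : ρ ≤ 1) (f : MvPolynomial σ A) :
    ρ ^ K * nrm p K zero_le_one f ≤ nrm p K hρ.le f := by
  rw [nrm_apply, nrm_apply]
  unfold nrmF
  rw [Finset.mul_sum]
  refine Finset.sum_le_sum fun s _ => ?_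
  unfold wt
  split_ifs with h
  · have h1 : s.degree ≤ K := by exact_mod_cast h
    rw [one_pow, mul_one, mul_comm]
    exact mul_le_mul_of_nonneg_left (pow_le_pow_of_le_one hρ.le hρ1 h1) (apply_nonneg p _)
  · rw [mul_zero]

end

end Pool.JM
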